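import Pool.Agent.Helper90.FU.N1D

/-!
Fused machine (MP_c75db0, star frame), row N1: THE LEAVES.
-/

set_option autoImplicit false
set_option exponentiation.threshold 100000
noncomputable section
namespace Pool.Agent.Helper91.FU.N1

open Finset
open Pool.Agent.Helper91
open Pool.Agent.Helper91.TM (Sm Sz Sp fo fo_t fo_f vb xd vb_iff Sz_cast Sz_congr)
open Pool.Agent.Helper55.CV (RN cst55 b1 b2)
open Pool.Agent.Helper17.N9 (MR2)

/-! ### the start -/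

/-- the digits of the packed number -/
def f0 (p : ℕ → ℤ) (i : ℕ) : ℤ := bif vb i then p i + 2 ^ 73 else 0

theorem vb_z {i : ℕ} (h : 301 ≤ i) : vb i = false := by
  cases hv : vb i
  · rfl
  · have := ((vb_iff i).1 hv).1
    omega

theorem p_le {p : ℕ → ℤ} (hs : Sp p) (h : ∑ i ∈ range 301, |p i| ≤ 2 ^ 73 - 2 ^ 36) (i : ℕ) :
    |p i| ≤ 2 ^ 73 := by
  rcases lt_or_ge i 301 with hi | hi
  · have h1 := Finset.single_le_sum (f := fun i => |p i|) (fun _ _ => abs_nonneg _)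
      (mem_range.2 hi)
    have h2 : |p i| ≤ ∑ i ∈ range 301, |p i| := h1
    have h3 : (0 : ℤ) ≤ 2 ^ 36 := by positivity
    linarith
  · rw [hs i (vb_z hi)]
    norm_num

theorem f0_bd {p : ℕ → ℤ} (hp : ∀ i, |p i| ≤ 2 ^ 73) : (∀ i, 0 ≤ f0 p i) ∧ Bd (f0 p) := by
  refine ⟨fun i => ?_, fun i => ?_, fun i hi => ?_⟩
  · have := (abs_le.1 (hp i)).1
    unfold f0
    cases vb i
    · exact le_rfl
    · rw [cond_true]
      linarith
  · have h1 := (abs_le.1 (hp i)).2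
    unfold f0
    cases vb i
    · rw [cond_false]
      norm_num
    · rw [cond_true]
      have h2 : (2 : ℤ) ^ 73 + 2 ^ 73 < 2 ^ 80 := by norm_num
      linarith
  · unfold f0
    rw [vb_z hi]
    rfl

theorem HN_Y {Y : ℕ} {p q : ℕ → ℤ} (h : NY Y p q) (hp : ∀ i, |p i| ≤ 2 ^ 73)
    (hq : ∀ i, |q i| ≤ 2 ^ 73) : HN Y (f0 p) (f0 q) := by
  have a := (f0_bd hp).1
  have b := (f0_bd hq).1
  refine ⟨⟨?_, fun i => ?_⟩, a, b⟩
  · rw [h.Y, Sz_cast]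
    refine Sz_congr fun i _ => ?_
    show ((if vb i = true then (p i + 2 ^ 73).toNat + 2 ^ 80 * (q i + 2 ^ 73).toNat else 0 : ℕ) : ℤ) =
      f0 p i + 2 ^ 80 * f0 q i
    unfold f0
    have h1 := (abs_le.1 (hp i)).1
    have h2 := (abs_le.1 (hq i)).1
    cases vb i
    · rfl
    · rw [if_pos rfl, cond_true, cond_true, Nat.cast_add, Nat.cast_mul,
        Int.toNat_of_nonneg (by linarith), Int.toNat_of_nonneg (by linarith)]
      push_cast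
      rfl
  · have := a i
    have := b i
    show 0 ≤ f0 p i + 2 ^ 80 * f0 q i
    positivity

theorem uF_bd {f : ℕ → ℤ} (h : ∀ i, 0 ≤ f i) (hb : Bd f) : Bd (uF f) := by
  refine ⟨fun i => ?_, fun i hi => ?_⟩
  · have h1 := hb.lt i
    have h2 := h i
    unfold uF
    cases vb i
    · rw [cond_false]
      norm_num
    · rw [cond_true]
      have h3 : f i / 4 ^ xd i ≤ f i := Int.ediv_le_self _ h2
      linarith
  · unfold uF
    rw [vb_z hi]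
    rfl

theorem Inv0 {p : ℕ → ℤ} (hs : Sp p) (hp : ∀ i, |p i| ≤ 2 ^ 73) :
    Inv (uF (f0 p)) O0 (fun i => (p i : ℝ) / 4 ^ xd i) 1 := by
  have key : ∀ i, vb i = true → ∃ m : ℕ, O0 i = m ∧ (m : ℤ) * 4 ^ xd i = 2 ^ 73 := by
    intro i hv
    have h6 : xd i ≤ 6 := by
      have := ((vb_iff i).1 hv).1
      unfold xd
      omega
    refine ⟨2 ^ (73 - 2 * xd i), ?_, ?_⟩
    · show nI (vb i) (2 ^ (73 - 2 * (i / 43))) = _
      rw [hv, nI_t]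
      rfl
    · have h4 : (4 : ℤ) ^ xd i = 2 ^ (2 * xd i) := by
        rw [pow_mul]
        norm_num
      rw [h4]
      push_cast
      rw [← pow_add, Nat.sub_add_cancel (by omega)]
      norm_num
  have z : ∀ i, vb i = false → uF (f0 p) i = 0 ∧ O0 i = 0 ∧ p i = 0 := fun i hv => by
    refine ⟨?_, ?_, hs i hv⟩
    · unfold uF
      rw [hv]
      rfl
    · show nI (vb i) _ = 0
      rw [hv, nI_f]
  have e : ∀ i, vb i = true → uF (f0 p) i = (p i + 2 ^ 73) / 4 ^ xd i := fun i hv => by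
    unfold uF f0
    rw [hv, cond_true, cond_true]
  refine ⟨fun i => ?_, fun i => ?_, fun i => ?_⟩
  · cases hv : vb i
    · rw [(z i hv).1]
    · rw [e i hv]
      have := (abs_le.1 (hp i)).1
      exact Int.ediv_nonneg (by linarith) (by positivity)
  · cases hv : vb i
    · rw [(z i hv).1, (z i hv).2.1]
      norm_num
    · obtain ⟨m, hm, h1⟩ := key i hv
      have h2 := (abs_le.1 (hp i)).2
      rw [e i hv, hm]
      have h3 : (0 : ℤ) < 4 ^ xd i := by positivity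
      have h4 : p i + 2 ^ 73 ≤ 2 * (m : ℤ) * 4 ^ xd i := by
        rw [mul_assoc, h1]
        linarith
      exact Int.ediv_le_of_le_mul h3 h4
  · cases hv : vb i
    · rw [(z i hv).1, (z i hv).2.1]
      show |((0 : ℤ) : ℝ) - (((0 : ℕ) : ℝ) + (p i : ℝ) / 4 ^ xd i)| ≤ 1
      rw [(z i hv).2.2]
      simp
    · obtain ⟨m, hm, h1⟩ := key i hv
      rw [e i hv, hm]
      show |(((p i + 2 ^ 73) / 4 ^ xd i : ℤ) : ℝ) - ((m : ℝ) + (p i : ℝ) / 4 ^ xd i)| ≤ 1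
      have h3 : (0 : ℤ) < 4 ^ xd i := by positivity
      have h3' : (0 : ℝ) < 4 ^ xd i := by positivity
      have h5 : (p i + 2 ^ 73) / 4 ^ xd i = p i / 4 ^ xd i + m := by
        rw [← h1, Int.add_mul_ediv_right _ _ h3.ne']
      rw [h5]
      have a1 : p i / 4 ^ xd i * 4 ^ xd i ≤ p i := Int.ediv_mul_le _ h3.ne'
      have a2 : p i < (p i / 4 ^ xd i + 1) * 4 ^ xd i := Int.lt_ediv_add_one_mul_self _ h3
      have a1' : ((p i / 4 ^ xd i : ℤ) : ℝ) * 4 ^ xd i ≤ p i := by exact_mod_cast a1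
      have a2' : (p i : ℝ) < (((p i / 4 ^ xd i : ℤ) : ℝ) + 1) * 4 ^ xd i := by exact_mod_cast a2
      have b1 : ((p i / 4 ^ xd i : ℤ) : ℝ) ≤ (p i : ℝ) / 4 ^ xd i := (le_div_iff₀ h3').2 a1'
      have b2 : (p i : ℝ) / 4 ^ xd i < ((p i / 4 ^ xd i : ℤ) : ℝ) + 1 := (div_lt_iff₀ h3').2 a2'
      push_cast
      rw [abs_le]
      constructor <;> linarith

/-! ### the levels -/

theorem lv2_ok {X : ℕ} {f g : ℕ → ℤ} {x y : ℕ → ℝ} {ε : ℝ} (h : HN X f g) (hf : Bd f) (hg : Bd g)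
    (If : Inv f O0 x ε) (Ig : Inv g O0 y ε) :
    HN (lv2 X) (lvF b2 50 7 (fun p => 2 * (nO 50 O0 p : ℤ)) f)
      (lvF b2 50 7 (fun p => 2 * (nO 50 O0 p : ℤ)) g) :=
  h.lv (st := 50) (e := 7) m2_ok n2_ok hf hg (HN_k k2_ok) (fun i _ => (If.o0 cO0.2.1 i).2)
    (fun i _ => (Ig.o0 cO0.2.1 i).2) (fun _ hp => b2_hb hp)

theorem lv1_ok {X : ℕ} {f g : ℕ → ℤ} {x y : ℕ → ℝ} {ε : ℝ} (h : HN X f g) (hf : Bd f) (hg : Bd g)
    (If : Inv f O2 x ε) (Ig : Inv g O2 y ε) :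
    HN (lv1 X) (lvF b1 44 2 (fun p => 2 * (nO 44 O2 p : ℤ)) f)
      (lvF b1 44 2 (fun p => 2 * (nO 44 O2 p : ℤ)) g) :=
  h.lv (st := 44) (e := 2) m1_ok n1_ok hf hg (HN_k k1_ok) (fun i _ => (If.o0 cO2.2.1 i).2)
    (fun i _ => (Ig.o0 cO2.2.1 i).2) (fun _ hp => b1_hb hp)

/-- the three values -/
def FF (i0 : Fin 3) (f : ℕ → ℤ) : ℕ → ℤ :=
  ![fun i => eE 43 f i + 2 * (nO 43 O1 i : ℤ) - eO 43 f i, f, fun i => eE 43 f i + eO 43 f i] i0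
def OO (i0 : Fin 3) : ℕ → ℕ := ![Oo, O1, Oo] i0
def SS (i0 : Fin 3) : ℕ := ![sa, sc, sb] i0

theorem lv0_ok {X : ℕ} {f g : ℕ → ℤ} {x y : ℕ → ℝ} {ε : ℝ} (h : HN X f g) (hf : Bd f) (hg : Bd g)
    (If : Inv f O1 x ε) (Ig : Inv g O1 y ε) (i0 : Fin 3) :
    HN (uc (lv0 X) i0) (fun i => bif b0 i then FF i0 f i else 0)
      (fun i => bif b0 i then FF i0 g i else 0) := by
  have hE := h.ev (st := 43) m0_ok hf hg
  have hO := h.od (st := 43) m0_ok n0_ok hf hg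
  have hc := h.msk0 m0_ok hf hg 0
  have hK := HN_k k0_ok
  fin_cases i0
  · show HN (Nat.sub (Nat.add _ k0) _) _ _
    refine ((hE.add hK).sub hO (fun i => ?_) fun i => ?_).congr (fun i => ?_) fun i => ?_
    · cases hb' : b0 i
      · exact le_rfl
      · simp only [cond_true]
        have h1 := (If.o0 (st := 43) cO1.2.1 i).2
        have h2 := (If.e0 (st := 43) i).1
        omega
    · cases hb' : b0 i
      · exact le_rfl
      · simp only [cond_true]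
        have h1 := (Ig.o0 (st := 43) cO1.2.1 i).2
        have h2 := (Ig.e0 (st := 43) i).1
        omega
    · cases b0 i
      · rfl
      · rfl
    · cases b0 i
      · rfl
      · rfl
  · exact hc
  · show HN (Nat.add _ _) _ _
    refine (hE.add hO).congr (fun i => ?_) fun i => ?_
    · cases b0 i
      · rfl
      · rfl
    · cases b0 i
      · rfl
      · rfl

/-! ### the offsets of the leaves -/

theorem cOo : allN (fun i => and (Nat.blt (Oo i) (nat_lit 604462909807314587353088))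
    (Nat.beq (Nat.mod (Oo i) (nat_lit 18014398509481984)) (nat_lit 0))) 19 = true := by
  decide +kernel
theorem OO_ok (i0 : Fin 3) {i : ℕ} (hb : b0 i = true) : OO i0 i < 2 ^ 79 ∧ 2 ^ 54 ∣ OO i0 i := by
  have h19 : i < 19 := by
    by_contra hc
    rw [b0_z (by omega)] at hb
    exact absurd hb (by decide)
  have a : Oo i < 2 ^ 79 ∧ 2 ^ 54 ∣ Oo i := by
    have h1 := allN_ok cOo i h19
    have h2 : (Nat.blt (Oo i) 604462909807314587353088 &&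
        Nat.beq (Oo i % 18014398509481984) 0) = true := h1
    rw [Bool.and_eq_true, Nat.blt_eq] at h2
    refine ⟨h2.1, ?_⟩
    have h3 := Nat.dvd_of_mod_eq_zero (Nat.eq_of_beq_eq_true h2.2)
    have e : (2 : ℕ) ^ 54 = 18014398509481984 := by norm_num
    rw [e]
    exact h3
  have b : O1 i < 2 ^ 79 ∧ 2 ^ 54 ∣ O1 i := by
    refine ⟨cO1.1 i (by omega), ?_⟩
    have h3 := cO1.2.2 i
    have e : (2 : ℕ) ^ 54 ∣ 72057594037927936 := ⟨4, by norm_num⟩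
    exact dvd_trans e h3
  fin_cases i0
  · exact a
  · exact b
  · exact a

theorem SS_ok (i0 : Fin 3) :
    SS i0 = Sm 301 (fun i => nI (b0 i) (OO i0 i / 2 ^ 34 * (1 + 2 ^ 128))) := by
  have e1 := sa_ok
  have e2 := sc_ok
  have e3 := sb_ok
  rw [oL_eq] at e1 e2 e3
  fin_cases i0
  · exact e1
  · exact e2
  · exact e3

theorem FF_bd {f : ℕ → ℤ} {x : ℕ → ℝ} {ε : ℝ} (I : Inv f O1 x ε) (i0 : Fin 3) (i : ℕ) :
    0 ≤ FF i0 f i ∧ FF i0 f i ≤ 2 * (OO i0 i : ℤ) ∧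
      |((FF i0 f i - OO i0 i : ℤ) : ℝ) - rN i0 43 x i| ≤ 7 * ε + 6 := by
  have hε : 0 ≤ ε := (abs_nonneg _).trans (I.er 0)
  have h1 := I.e0 (st := 43) i
  have h2 := I.o0 (st := 43) cO1.2.1 i
  have h3 := abs_le.1 (I.eE_er (st := 43) i)
  have h4 := abs_le.1 (I.eO_er (st := 43) cO1.2.1 i)
  have e : (Oo i : ℤ) = nE 43 O1 i + nO 43 O1 i := by
    show ((nE 43 O1 i + nO 43 O1 i : ℕ) : ℤ) = _
    push_cast
    rfl
  fin_cases i0
  · show 0 ≤ eE 43 f i + 2 * (nO 43 O1 i : ℤ) - eO 43 f i ∧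
      eE 43 f i + 2 * (nO 43 O1 i : ℤ) - eO 43 f i ≤ 2 * (Oo i : ℤ) ∧
      |((eE 43 f i + 2 * (nO 43 O1 i : ℤ) - eO 43 f i - Oo i : ℤ) : ℝ) -
        (rE 43 x i - rO 43 x i)| ≤ 7 * ε + 6
    rw [e]
    refine ⟨by omega, by omega, ?_⟩
    push_cast
    rw [abs_le]
    constructor <;> linarith [h3.1, h3.2, h4.1, h4.2]
  · show 0 ≤ f i ∧ f i ≤ 2 * (O1 i : ℤ) ∧ |((f i - O1 i : ℤ) : ℝ) - x i| ≤ 7 * ε + 6
    have h5 := abs_le.1 (I.er i)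
    refine ⟨I.nn i, I.le i, ?_⟩
    push_cast
    rw [abs_le]
    constructor <;> linarith [h5.1, h5.2]
  · show 0 ≤ eE 43 f i + eO 43 f i ∧ eE 43 f i + eO 43 f i ≤ 2 * (Oo i : ℤ) ∧
      |((eE 43 f i + eO 43 f i - Oo i : ℤ) : ℝ) - (rE 43 x i + rO 43 x i)| ≤ 7 * ε + 6
    rw [e]
    refine ⟨by omega, by omega, ?_⟩
    push_cast
    rw [abs_le]
    constructor <;> linarith [h3.1, h3.2, h4.1, h4.2]

theorem ec_le (e : ℕ) (i : Fin 3) : |ec e (ns i)| ≤ 1 := by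
  unfold ec ns
  fin_cases i
  · show |(if e = 0 then (1 : ℝ) else if e = 1 then ((0 : ℕ) : ℝ) - 1 else
      if e % 2 = 1 then 3 / 4 * (((0 : ℕ) : ℝ) - 1) else (((0 : ℕ) : ℝ) - 1) ^ 2)| ≤ 1
    split_ifs <;> norm_num
  · show |(if e = 0 then (1 : ℝ) else if e = 1 then ((1 : ℕ) : ℝ) - 1 else
      if e % 2 = 1 then 3 / 4 * (((1 : ℕ) : ℝ) - 1) else (((1 : ℕ) : ℝ) - 1) ^ 2)| ≤ 1
    split_ifs <;> norm_num
  · show |(if e = 0 then (1 : ℝ) else if e = 1 then ((2 : ℕ) : ℝ) - 1 else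
      if e % 2 = 1 then 3 / 4 * (((2 : ℕ) : ℝ) - 1) else (((2 : ℕ) : ℝ) - 1) ^ 2)| ≤ 1
    split_ifs <;> norm_num

theorem Un_le {p : ℕ → ℤ} (h : ∑ i ∈ range 301, |p i| ≤ 2 ^ 73 - 2 ^ 36) (i0 i1 i2 : Fin 3) :
    |Un (fun i => (p i : ℝ)) i0 i1 i2| ≤ 2 ^ 73 - 2 ^ 36 := by
  have h' : ∑ i ∈ range 301, |(p i : ℝ)| ≤ 2 ^ 73 - 2 ^ 36 := by
    have h0 : ((∑ i ∈ range 301, |p i| : ℤ) : ℝ) ≤ ((2 ^ 73 - 2 ^ 36 : ℤ) : ℝ) := Int.cast_le.2 h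
    have h1 : ((∑ i ∈ range 301, |p i| : ℤ) : ℝ) = ∑ i ∈ range 301, |(p i : ℝ)| := by
      rw [Int.cast_sum]
      exact Finset.sum_congr rfl fun i _ => Int.cast_abs
    rw [← h1]
    refine h0.trans (le_of_eq ?_)
    norm_num
  refine le_trans ?_ h'
  unfold Un
  refine (Finset.abs_sum_le_sum_abs _ _).trans (Finset.sum_le_sum fun i _ => ?_)
  rw [abs_mul, abs_mul, abs_mul, abs_div]
  have a0 := ec_le (TM.x0 i) i0
  have a1 := ec_le (TM.x1 i) i1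
  have a2 := ec_le (TM.x2 i) i2
  have h1 : |ec (TM.x0 i) (ns i0)| * |ec (TM.x1 i) (ns i1)| * |ec (TM.x2 i) (ns i2)| ≤ 1 := by
    have h3 := mul_le_one₀ a0 (abs_nonneg _) a1
    exact mul_le_one₀ h3 (abs_nonneg _) a2
  have h4 : (1 : ℝ) ≤ |(4 : ℝ) ^ xd i| := by
    rw [abs_of_pos (by positivity)]
    exact one_le_pow₀ (by norm_num)
  have h2 : |(p i : ℝ)| / |(4 : ℝ) ^ xd i| ≤ |(p i : ℝ)| := div_le_self (abs_nonneg _) h4
  calc |(p i : ℝ)| / |(4 : ℝ) ^ xd i| * (|ec (TM.x0 i) (ns i0)| * |ec (TM.x1 i) (ns i1)| *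
      |ec (TM.x2 i) (ns i2)|) ≤ |(p i : ℝ)| * 1 :=
        mul_le_mul h2 h1 (by positivity) (abs_nonneg _)
    _ = |(p i : ℝ)| := mul_one _

theorem b0_rep : ∀ i < 19, b0 i = true → ∃ i1 < 3, ∃ i2 < 3, i = 7 * i2 + 2 * i1 := by
  decide +kernel
theorem b0_at : ∀ i1 < 3, ∀ i2 < 3, b0 (7 * i2 + 2 * i1) = true := by decide +kernel

/-- one half of a leaf -/
structure Lf (p : ℕ → ℤ) (i0 : Fin 3) (F : ℕ → ℤ) : Prop where
  lb : ∀ i, b0 i = true → LB F (OO i0) i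
  er : ∀ i1 i2 : Fin 3, |((F (7 * (i2 : ℕ) + 2 * (i1 : ℕ)) -
    OO i0 (7 * (i2 : ℕ) + 2 * (i1 : ℕ)) : ℤ) : ℝ) - Un (fun i => (p i : ℝ)) i0 i1 i2| ≤ 2925

theorem Lf_of {p : ℕ → ℤ} (hs : Sp p) (h : ∑ i ∈ range 301, |p i| ≤ 2 ^ 73 - 2 ^ 36) (i0 : Fin 3)
    {f : ℕ → ℤ} (I : Inv f O1 (rP b1 44 2 (rP b2 50 7 (fun i => (p i : ℝ) / 4 ^ xd i))) 417) :
    Lf p i0 (FF i0 f) := by
  have er : ∀ i1 i2 : Fin 3, |((FF i0 f (7 * (i2 : ℕ) + 2 * (i1 : ℕ)) -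
      OO i0 (7 * (i2 : ℕ) + 2 * (i1 : ℕ)) : ℤ) : ℝ) - Un (fun i => (p i : ℝ)) i0 i1 i2| ≤ 2925 := by
    intro i1 i2
    have h1 := (FF_bd I i0 (7 * (i2 : ℕ) + 2 * (i1 : ℕ))).2.2
    rw [Un_eq (p := fun i => (p i : ℝ)) (fun i hv => by
      show (p i : ℝ) = 0
      rw [hs i hv]
      norm_num)] at h1
    refine h1.trans ?_
    norm_num
  refine ⟨fun i hb => ?_, er⟩
  have h19 : i < 19 := by
    by_contra hc
    rw [b0_z (by omega)] at hb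
    exact absurd hb (by decide)
  obtain ⟨i1, h1, i2, h2, e⟩ := b0_rep i h19 hb
  have k := abs_le.1 (er ⟨i1, h1⟩ ⟨i2, h2⟩)
  have u := abs_le.1 (Un_le h i0 ⟨i1, h1⟩ ⟨i2, h2⟩)
  have e' : 7 * ((⟨i2, h2⟩ : Fin 3) : ℕ) + 2 * ((⟨i1, h1⟩ : Fin 3) : ℕ) = i := e.symm
  rw [e'] at k
  obtain ⟨b1', b2', -⟩ := FF_bd I i0 i
  obtain ⟨c1, -⟩ := OO_ok i0 hb
  have c1' : (OO i0 i : ℤ) < 2 ^ 79 := by exact_mod_cast c1
  have p80 : (2 : ℤ) ^ 80 = 2 * 2 ^ 79 := by norm_num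
  have lo : (-(2 ^ 73 : ℤ) : ℝ) ≤ ((FF i0 f i - OO i0 i : ℤ) : ℝ) := by
    push_cast
    have h3 := k.1
    have h4 := u.1
    push_cast at h3
    norm_num at h3 h4 ⊢
    linarith
  have hi : ((FF i0 f i - OO i0 i : ℤ) : ℝ) < ((2 ^ 73 : ℤ) : ℝ) := by
    push_cast
    have h3 := k.2
    have h4 := u.2
    push_cast at h3
    norm_num at h3 h4 ⊢
    linarith
  refine ⟨b1', by linarith, ?_, by exact_mod_cast hi⟩
  have : ((-(2 ^ 73) : ℤ) : ℝ) ≤ ((FF i0 f i - OO i0 i : ℤ) : ℝ) := by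
    push_cast at lo ⊢
    exact lo
  exact_mod_cast this

theorem tr3_uc (k : ℕ) (u : U3) (i0 : Fin 3) : uc (tr3 k u) i0 = trU k (SS i0) (uc u i0) := by
  fin_cases i0
  · rfl
  · rfl
  · rfl
theorem ndY_eq (Y : ℕ) : ndY Y = lv0 (lv1 (lv2 (usc Y))) := rfl

/-- the number of a leaf -/
theorem half_ok {p : ℕ → ℤ} (h : ∑ i ∈ range 301, |p i| ≤ 2 ^ 73 - 2 ^ 36) {i0 i1 i2 : Fin 3}
    {K : ℕ} (hK : 34 ≤ K) {z : ℤ} (hz : |(z : ℝ) - Un (fun i => (p i : ℝ)) i0 i1 i2| ≤ 2925) :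
    |z / 2 ^ K| ≤ 2 ^ 39 ∧
      -(1 / 2 ^ 10 : ℝ) ≤ Un (fun i => (p i : ℝ)) i0 i1 i2 / 2 ^ K - ((z / 2 ^ K : ℤ) : ℝ) ∧
      Un (fun i => (p i : ℝ)) i0 i1 i2 / 2 ^ K - ((z / 2 ^ K : ℤ) : ℝ) ≤ 1 + 1 / 2 ^ 10 := by
  have u := abs_le.1 (Un_le h i0 i1 i2)
  generalize Un (fun i => (p i : ℝ)) i0 i1 i2 = U at u hz ⊢
  have k := abs_le.1 hz
  obtain ⟨m, rfl⟩ : ∃ m, K = 34 + m := ⟨K - 34, by omega⟩
  have hp : (0 : ℤ) < 2 ^ (34 + m) := by positivity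
  have hp' : (0 : ℝ) < 2 ^ (34 + m) := by positivity
  have hm : (1 : ℝ) ≤ 2 ^ m := one_le_pow₀ (by norm_num)
  have e34 : (17179869184 : ℝ) ≤ 2 ^ (34 + m) := by
    have : (2 : ℝ) ^ (34 + m) = 17179869184 * 2 ^ m := by
      rw [pow_add]
      norm_num
    linarith
  have a1 : z / 2 ^ (34 + m) * 2 ^ (34 + m) ≤ z := Int.ediv_mul_le _ hp.ne'
  have a2 : z < (z / 2 ^ (34 + m) + 1) * 2 ^ (34 + m) := Int.lt_ediv_add_one_mul_self _ hp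
  have a1' : ((z / 2 ^ (34 + m) : ℤ) : ℝ) * 2 ^ (34 + m) ≤ z := by exact_mod_cast a1
  have a2' : (z : ℝ) < (((z / 2 ^ (34 + m) : ℤ) : ℝ) + 1) * 2 ^ (34 + m) := by exact_mod_cast a2
  clear a1 a2 hm hp
  generalize z / 2 ^ (34 + m) = a at a1' a2' ⊢
  generalize (2 : ℝ) ^ (34 + m) = P at hp' e34 a1' a2' ⊢
  have d : U = U / P * P := (div_mul_cancel₀ _ hp'.ne').symm
  generalize U / P = V at d ⊢
  have u1 := u.1
  have u2 := u.2
  have k1 := k.1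
  have k2 := k.2
  norm_num at u1 u2
  have l1 : (a : ℝ) ≤ V + 1 / 1024 := by
    refine le_of_mul_le_mul_right ?_ hp'
    rw [add_mul]
    linarith
  have l2 : V ≤ a + 1 + 1 / 1024 := by
    refine le_of_mul_le_mul_right ?_ hp'
    rw [add_mul]
    linarith
  have v1 : V ≤ 549755813884 := by
    refine le_of_mul_le_mul_right ?_ hp'
    rw [← d]
    linarith
  have v2 : -549755813884 ≤ V := by
    refine le_of_mul_le_mul_right ?_ hp'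
    rw [← d]
    linarith
  have w1 : a ≤ 549755813888 := by
    have : (a : ℝ) ≤ ((549755813888 : ℤ) : ℝ) := by
      push_cast
      linarith
    exact_mod_cast this
  have w2 : -549755813888 ≤ a := by
    have : ((-549755813888 : ℤ) : ℝ) ≤ (a : ℝ) := by
      push_cast
      linarith
    exact_mod_cast this
  refine ⟨abs_le.2 ⟨?_, ?_⟩, ?_, ?_⟩
  · norm_num
    exact w2
  · norm_num
    exact w1
  · norm_num
    linarith
  · norm_num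
    linarith

end Pool.Agent.Helper91.FU.N1

namespace Pool.Agent.Helper91.FU

open Finset
open Pool.Agent.Helper17.N9 (MR2)
open N1

/-- THE LEAVES: `usc`, `lv2`, `lv1`, `lv0`, `tr3`. The digits lose at most a little: `d / 4 ^ d`
rounded down, two low bits cleared -/
theorem leafN {Y k : ℕ} {p q : ℕ → ℤ} (hk : k ≤ 20) (h : NY Y p q) (i0 i1 i2 : Fin 3) :
    ∃ a b : ℤ, ((gt (uc (tr3 k (ndY Y)) i0) (320 * (i1 : ℕ) + 1120 * (i2 : ℕ)) MR2 : ℕ) : ℤ) =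
      (2 ^ 40 + a) + (2 ^ 40 + b) * 2 ^ 128 ∧ |a| ≤ 2 ^ 39 ∧ |b| ≤ 2 ^ 39 ∧
      -(1 / 2 ^ 10 : ℝ) ≤ Un (fun i => (p i : ℝ)) i0 i1 i2 / 2 ^ (34 + k) - a ∧
      Un (fun i => (p i : ℝ)) i0 i1 i2 / 2 ^ (34 + k) - a ≤ 1 + 1 / 2 ^ 10 ∧
      -(1 / 2 ^ 10 : ℝ) ≤ Un (fun i => (q i : ℝ)) i0 i1 i2 / 2 ^ (34 + k) - b ∧
      Un (fun i => (q i : ℝ)) i0 i1 i2 / 2 ^ (34 + k) - b ≤ 1 + 1 / 2 ^ 10 := by
  have lp := p_le h.sp h.bp
  have lq := p_le h.sq h.bq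
  obtain ⟨np, bp⟩ := f0_bd lp
  obtain ⟨nq, bq⟩ := f0_bd lq
  have H0 := usc_ok (HN_Y h lp lq) bp bq
  have I0p := Inv0 h.sp lp
  have I0q := Inv0 h.sq lq
  have H2 := lv2_ok H0 (uF_bd np bp) (uF_bd nq bq) I0p I0q
  have I2p := I0p.lv (st := 50) cO0.2.1 Helper55.CV.b2 7
  have I2q := I0q.lv (st := 50) cO0.2.1 Helper55.CV.b2 7
  have H1 := lv1_ok H2 (I2p.bd cO2.1 (fun _ h => O2_z h)) (I2q.bd cO2.1 (fun _ h => O2_z h)) I2p I2q
  have I1p := I2p.lv (st := 44) cO2.2.1 Helper55.CV.b1 2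
  have I1q := I2q.lv (st := 44) cO2.2.1 Helper55.CV.b1 2
  have e417 : (15 * (15 * 1 + 12) + 12 : ℝ) = 417 := by norm_num
  rw [e417] at I1p I1q
  have HL := lv0_ok H1 (I1p.bd cO1.1 (fun _ h => O1_z h)) (I1q.bd cO1.1 (fun _ h => O1_z h))
    I1p I1q i0
  have Lp := Lf_of h.sp h.bp i0 I1p
  have Lq := Lf_of h.sq h.bq i0 I1q
  have eq : 160 * (7 * (i2 : ℕ) + 2 * (i1 : ℕ)) = 320 * (i1 : ℕ) + 1120 * (i2 : ℕ) := by ring
  have key := leaf_x (s := SS i0) (k := k) (K := 34 + k) hk rfl HL (SS_ok i0)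
    (fun i hb => (OO_ok i0 hb).2) Lp.lb Lq.lb (b0_at i1 i1.2 i2 i2.2)
  rw [eq] at key
  rw [tr3_uc, ndY_eq]
  obtain ⟨a1, a2, a3⟩ := half_ok h.bp (K := 34 + k) (by omega) (Lp.er i1 i2)
  obtain ⟨c1, c2, c3⟩ := half_ok h.bq (K := 34 + k) (by omega) (Lq.er i1 i2)
  exact ⟨_, _, key, a1, c1, a2, a3, c2, c3⟩

end Pool.Agent.Helper91.FU
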