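import Pool.Agent.Helper91.FU.RC
import Pool.Agent.Helper55.TM.CV1

/-!
Fused machine (MP_c75db0, star frame), row N1: digits with two halves of `80` bits, masks, shifts.
-/

set_option autoImplicit false
set_option exponentiation.threshold 100000
noncomputable section
namespace Pool.Agent.Helper91.FU.N1

open Finset
open Pool.Agent.Helper91
open Pool.Agent.Helper91.TM (Sm Sz Sp fo fo_t fo_f land_split Sm_land Sm_congr Sm_eq Sz_cast Sz_congr)
open Pool.Agent.Helper55.CV (RN digits55 Sz_mul55 Sz_nn55)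

/-! ### masks -/

/-- the bits from `s` on of both halves -/
def Ms (s : ℕ) : ℕ := (2 ^ 80 - 2 ^ s) * (1 + 2 ^ 80)

theorem and_hi {s a : ℕ} (hs : s ≤ 80) (ha : a < 2 ^ 80) :
    a &&& (2 ^ 80 - 2 ^ s) = 2 ^ s * (a / 2 ^ s) := by
  have e0 : (2 : ℕ) ^ 80 = 2 ^ s * 2 ^ (80 - s) := by
    rw [← pow_add]
    congr 1
    omega
  have e1 : (2 : ℕ) ^ 80 - 2 ^ s = 0 + 2 ^ s * (2 ^ (80 - s) - 1) := by
    rw [zero_add, Nat.mul_sub, ← e0, mul_one]
  have e2 : a = a % 2 ^ s + 2 ^ s * (a / 2 ^ s) := (Nat.mod_add_div a (2 ^ s)).symm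
  have h1 : a % 2 ^ s < 2 ^ s := Nat.mod_lt _ (by positivity)
  have h2 : a / 2 ^ s < 2 ^ (80 - s) := by
    rw [Nat.div_lt_iff_lt_mul (by positivity), mul_comm, ← e0]
    exact ha
  rw [e1]
  conv_lhs => rw [e2]
  rw [land_split h1 (by positivity), Nat.and_zero, zero_add, Nat.and_two_pow_sub_one_eq_mod,
    Nat.mod_eq_of_lt h2]

theorem and_Ms {s a b : ℕ} (hs : s ≤ 80) (ha : a < 2 ^ 80) (hb : b < 2 ^ 80) :
    (a + 2 ^ 80 * b) &&& Ms s = 2 ^ s * (a / 2 ^ s) + 2 ^ 80 * (2 ^ s * (b / 2 ^ s)) := by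
  have h2 : (2 : ℕ) ^ 80 - 2 ^ s < 2 ^ 80 := Nat.sub_lt (by positivity) (by positivity)
  have e : Ms s = (2 ^ 80 - 2 ^ s) + 2 ^ 80 * (2 ^ 80 - 2 ^ s) := by
    unfold Ms
    ring
  rw [e, land_split ha h2, and_hi hs ha, and_hi hs hb]

theorem Ms_lt {s : ℕ} : Ms s < 2 ^ 160 := by
  have h2 : (2 : ℕ) ^ 80 - 2 ^ s ≤ 2 ^ 80 - 1 := Nat.sub_le_sub_left Nat.one_le_two_pow _
  calc Ms s ≤ (2 ^ 80 - 1) * (1 + 2 ^ 80) := Nat.mul_le_mul_right _ h2
    _ < 2 ^ 160 := by norm_num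

/-- a mask -/
theorem mask_gen {s MB : ℕ} {bs : ℕ → Bool}
    (hM : MB = Sm 301 (fun i => fo (Ms s) (bs i))) (X r : ℕ) :
    Nat.land (Nat.shiftRight X (160 * r)) MB =
      Sm 301 (fun p => bif bs p then (X / 2 ^ (160 * (p + r)) % 2 ^ 160) &&& Ms s else 0) := by
  have e1 : Nat.shiftRight X (160 * r) = X / 2 ^ (160 * r) := Nat.shiftRight_eq_div_pow _ _
  have e3 := digits55 301 (X / 2 ^ (160 * r))
  rw [e1, hM]
  conv_lhs => rw [e3]
  refine (Sm_land ?_ ?_ _).trans (Sm_congr fun p _ => ?_)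
  · intro i _
    exact Nat.mod_lt _ (by positivity)
  · intro i _
    show fo (Ms s) (bs i) < 2 ^ 160
    cases bs i
    · rw [fo_f]; norm_num
    · rw [fo_t]; exact Ms_lt
  · show (X / 2 ^ (160 * r) / 2 ^ (160 * p) % 2 ^ 160) &&& fo (Ms s) (bs p) = _
    cases bs p
    · rw [fo_f, Nat.and_zero]
      rfl
    · rw [fo_t, cond_true, Nat.div_div_eq_div_mul, ← pow_add]
      congr 4
      ring

/-! ### numbers with two halves in each digit -/

/-- two halves of `80` bits -/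
def H2 (f g : ℕ → ℤ) (i : ℕ) : ℤ := f i + 2 ^ 80 * g i

/-- the number `X` has the digits `f + 2 ^ 80 g` -/
structure HN (X : ℕ) (f g : ℕ → ℤ) : Prop where
  rn : RN X (H2 f g)
  f0 : ∀ i, 0 ≤ f i
  g0 : ∀ i, 0 ≤ g i

/-- all digits fit in a half; `301` digits -/
structure Bd (f : ℕ → ℤ) : Prop where
  lt : ∀ i, f i < 2 ^ 80
  z : ∀ i, 301 ≤ i → f i = 0

theorem HN.congr {X : ℕ} {f g f' g' : ℕ → ℤ} (h : HN X f g) (e : ∀ i, f i = f' i)
    (e' : ∀ i, g i = g' i) : HN X f' g' := by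
  have h1 : f = f' := funext e
  have h2 : g = g' := funext e'
  rw [← h1, ← h2]
  exact h

theorem HN.add {X Y : ℕ} {f g f' g' : ℕ → ℤ} (h : HN X f g) (h' : HN Y f' g') :
    HN (Nat.add X Y) (fun i => f i + f' i) (fun i => g i + g' i) := by
  refine ⟨RN.congr (h.rn.add h'.rn) fun i => ?_, fun i => add_nonneg (h.f0 i) (h'.f0 i),
    fun i => add_nonneg (h.g0 i) (h'.g0 i)⟩
  unfold H2
  ring

theorem HN.sub {X Y : ℕ} {f g f' g' : ℕ → ℤ} (h : HN X f g) (h' : HN Y f' g')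
    (k : ∀ i, f' i ≤ f i) (k' : ∀ i, g' i ≤ g i) :
    HN (Nat.sub X Y) (fun i => f i - f' i) (fun i => g i - g' i) := by
  refine ⟨RN.congr (h.rn.sub h'.rn fun i => ?_) fun i => ?_, fun i => sub_nonneg.2 (k i),
    fun i => sub_nonneg.2 (k' i)⟩
  · unfold H2
    have := k i
    have := k' i
    omega
  · unfold H2
    ring

theorem HN.shl {X : ℕ} {f g : ℕ → ℤ} (h : HN X f g) {e : ℕ} (k : ∀ i, 301 ≤ i + e → f i = 0)
    (k' : ∀ i, 301 ≤ i + e → g i = 0) :
    HN (Nat.shiftLeft X (160 * e)) (fun i => if e ≤ i then f (i - e) else 0)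
      (fun i => if e ≤ i then g (i - e) else 0) := by
  refine ⟨RN.congr (h.rn.shl (e := e) fun i hi => ?_) fun i => ?_, fun i => ?_, fun i => ?_⟩
  · unfold H2
    rw [k i hi, k' i hi]
    ring
  · show (if e ≤ i then f (i - e) + 2 ^ 80 * g (i - e) else 0) =
      (if e ≤ i then f (i - e) else 0) + 2 ^ 80 * (if e ≤ i then g (i - e) else 0)
    split_ifs
    · rfl
    · rfl
  · show 0 ≤ (if e ≤ i then f (i - e) else 0)
    split_ifs
    · exact h.f0 _
    · exact le_rfl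
  · show 0 ≤ (if e ≤ i then g (i - e) else 0)
    split_ifs
    · exact h.g0 _
    · exact le_rfl

/-- a shift to the right which loses nothing -/
theorem RN_shr {X s : ℕ} {c : ℕ → ℤ} (h : RN X (fun i => 2 ^ s * c i)) :
    RN (Nat.shiftRight X s) c := by
  have hp : (0 : ℤ) < 2 ^ s := by positivity
  have h0 : ∀ i, 0 ≤ c i := fun i => nonneg_of_mul_nonneg_right (h.nn i) hp
  refine ⟨?_, h0⟩
  have e1 : ((Nat.shiftRight X s : ℕ) : ℤ) = (X : ℤ) / 2 ^ s := by
    have e2 : Nat.shiftRight X s = X / 2 ^ s := Nat.shiftRight_eq_div_pow _ _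
    rw [e2]
    push_cast
    rfl
  have e3 : Sz 301 (fun i => 2 ^ s * c i) = Sz 301 c * 2 ^ s := by
    rw [← Sz_mul55]
    exact Sz_congr fun i _ => by ring
  rw [e1, h.eq, e3]
  exact Int.mul_ediv_cancel _ (by positivity)

theorem HN.shr {X s : ℕ} {f g : ℕ → ℤ} (h : HN X (fun i => 2 ^ s * f i) (fun i => 2 ^ s * g i)) :
    HN (Nat.shiftRight X s) f g := by
  have hp : (0 : ℤ) < 2 ^ s := by positivity
  refine ⟨RN_shr (RN.congr h.rn fun i => ?_), fun i => nonneg_of_mul_nonneg_right (h.f0 i) hp,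
    fun i => nonneg_of_mul_nonneg_right (h.g0 i) hp⟩
  unfold H2
  ring

theorem H2_lt {f g : ℕ → ℤ} (hf : Bd f) (hg : Bd g) (i : ℕ) : H2 f g i < 2 ^ 160 := by
  have h1 := hf.lt i
  have h2 := hg.lt i
  unfold H2
  omega

/-- A MASK -/
theorem HN.msk {s MB : ℕ} {bs : ℕ → Bool} (hs : s ≤ 80)
    (hM : MB = Sm 301 (fun i => fo (Ms s) (bs i))) {X : ℕ} {f g : ℕ → ℤ} (h : HN X f g)
    (hf : Bd f) (hg : Bd g) (r : ℕ) :
    HN (gt X (160 * r) MB) (fun p => bif bs p then 2 ^ s * (f (p + r) / 2 ^ s) else 0)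
      (fun p => bif bs p then 2 ^ s * (g (p + r) / 2 ^ s) else 0) := by
  have hz : ∀ i, 301 ≤ i → H2 f g i = 0 := fun i hi => by
    unfold H2
    rw [hf.z i hi, hg.z i hi]
    ring
  refine ⟨?_, fun p => ?_, fun p => ?_⟩
  · show RN (Nat.land (Nat.shiftRight X (160 * r)) MB) _
    rw [mask_gen hM]
    refine ⟨?_, fun p => ?_⟩
    · rw [Sz_cast]
      refine Sz_congr fun p _ => ?_
      show ((bif bs p then (X / 2 ^ (160 * (p + r)) % 2 ^ 160) &&& Ms s else 0 : ℕ) : ℤ) =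
        (bif bs p then 2 ^ s * (f (p + r) / 2 ^ s) else 0) +
          2 ^ 80 * (bif bs p then 2 ^ s * (g (p + r) / 2 ^ s) else 0)
      cases hb : bs p
      · rfl
      · simp only [cond_true]
        have e1 := h.rn.dig (fun i => H2_lt hf hg i) hz (p + r)
        obtain ⟨a, ha⟩ := Int.eq_ofNat_of_zero_le (h.f0 (p + r))
        obtain ⟨b, hb'⟩ := Int.eq_ofNat_of_zero_le (h.g0 (p + r))
        have la : a < 2 ^ 80 := by
          have := hf.lt (p + r)
          rw [ha] at this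
          exact_mod_cast this
        have lb : b < 2 ^ 80 := by
          have := hg.lt (p + r)
          rw [hb'] at this
          exact_mod_cast this
        have e2 : X / 2 ^ (160 * (p + r)) % 2 ^ 160 = a + 2 ^ 80 * b := by
          have : ((X / 2 ^ (160 * (p + r)) % 2 ^ 160 : ℕ) : ℤ) = ((a + 2 ^ 80 * b : ℕ) : ℤ) := by
            rw [e1]
            unfold H2
            rw [ha, hb']
            push_cast
            rfl
          exact_mod_cast this
        rw [e2, and_Ms hs la lb, ha, hb']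
        push_cast
        rfl
    · show 0 ≤ (bif bs p then 2 ^ s * (f (p + r) / 2 ^ s) else 0) +
          2 ^ 80 * (bif bs p then 2 ^ s * (g (p + r) / 2 ^ s) else 0)
      cases hb : bs p
      · exact le_rfl
      · simp only [cond_true]
        have h1 : 0 ≤ f (p + r) / 2 ^ s := Int.ediv_nonneg (h.f0 _) (by positivity)
        have h2 : 0 ≤ g (p + r) / 2 ^ s := Int.ediv_nonneg (h.g0 _) (by positivity)
        positivity
  · show 0 ≤ (bif bs p then 2 ^ s * (f (p + r) / 2 ^ s) else 0)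
    cases hb : bs p
    · exact le_rfl
    · have h1 : 0 ≤ f (p + r) / 2 ^ s := Int.ediv_nonneg (h.f0 _) (by positivity)
      rw [cond_true]
      positivity
  · show 0 ≤ (bif bs p then 2 ^ s * (g (p + r) / 2 ^ s) else 0)
    cases hb : bs p
    · exact le_rfl
    · have h1 : 0 ≤ g (p + r) / 2 ^ s := Int.ediv_nonneg (h.g0 _) (by positivity)
      rw [cond_true]
      positivity

theorem HN.msk0 {MB : ℕ} {bs : ℕ → Bool}
    (hM : MB = Sm 301 (fun i => fo (Ms 0) (bs i))) {X : ℕ} {f g : ℕ → ℤ} (h : HN X f g)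
    (hf : Bd f) (hg : Bd g) (r : ℕ) :
    HN (gt X (160 * r) MB) (fun p => bif bs p then f (p + r) else 0)
      (fun p => bif bs p then g (p + r) else 0) := by
  refine (h.msk (by norm_num) hM hf hg r).congr (fun i => ?_) fun i => ?_
  · rw [pow_zero, Int.ediv_one, one_mul]
  · rw [pow_zero, Int.ediv_one, one_mul]

/-! ### constants given by a function -/

def SmH (h : Nat → Nat) (n : Nat) : Nat :=
  Nat.rec (motive := fun _ => Nat) (nat_lit 0)
    (fun i s => Nat.add s (Nat.shiftLeft (h i) (Nat.mul (nat_lit 160) i))) n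
theorem SmH_eq (h : Nat → Nat) (n : Nat) : SmH h n = Sm n h := by
  induction n with
  | zero => rfl
  | succ n ih =>
    have e : SmH h (n + 1) = SmH h n + Nat.shiftLeft (h n) (160 * n) := rfl
    rw [e, ih, Sm]
    congr 1
    exact Nat.shiftLeft_eq _ _
theorem cstH {c : Nat} {h : Nat → Nat} (e : Nat.beq c (SmH h (nat_lit 301)) = true) :
    c = Sm 301 h :=
  (Nat.eq_of_beq_eq_true e).trans (SmH_eq _ _)
/-- all `i < n` -/
def allN (h : Nat → Bool) (n : Nat) : Bool :=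
  Nat.rec (motive := fun _ => Bool) true (fun i s => and (h i) s) n
theorem allN_ok {h : Nat → Bool} : ∀ {n : Nat}, allN h n = true → ∀ i < n, h i = true
  | 0, _, i, hi => absurd hi (Nat.not_lt_zero i)
  | n + 1, e, i, hi => by
    have e1 : (h n && allN h n) = true := e
    rw [Bool.and_eq_true] at e1
    rcases Nat.lt_succ_iff_lt_or_eq.1 hi with h1 | h1
    · exact allN_ok e1.2 i h1
    · rw [h1]
      exact e1.1

end Pool.Agent.Helper91.FU.N1
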