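import Pool.Agent.Helper90.FU.N1A

/-!
Fused machine (MP_c75db0, star frame), row N1: one level (one variable), numbers, offsets, errors.
-/

set_option autoImplicit false
set_option exponentiation.threshold 100000
noncomputable section
namespace Pool.Agent.Helper91.FU.N1

open Finset
open Pool.Agent.Helper91
open Pool.Agent.Helper91.TM (Sm Sz Sp fo)
open Pool.Agent.Helper55.CV (RN)

/-! ### the integers -/

/-- even part -/
def eE (st : ℕ) (f : ℕ → ℤ) (p : ℕ) : ℤ :=
  (f p + f (p + 2 * st)) + (f (p + 4 * st) + f (p + 6 * st))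
/-- a quarter of the part with the factor `3/4` -/
def bO (st : ℕ) (f : ℕ → ℤ) (p : ℕ) : ℤ := f (p + 3 * st) / 2 ^ 2 + f (p + 5 * st) / 2 ^ 2
/-- odd part -/
def eO (st : ℕ) (f : ℕ → ℤ) (p : ℕ) : ℤ := f (p + 1 * st) + 3 * bO st f p

section

variable {bs : ℕ → Bool} {st : ℕ} {X MB NB K : ℕ} {f g κ : ℕ → ℤ}

theorem HN.ev (hM : MB = Sm 301 (fun i => fo (Ms 0) (bs i))) (h : HN X f g) (hf : Bd f)
    (hg : Bd g) :
    HN (ev4 (gt X (160 * 0) MB) (gt X (160 * (2 * st)) MB) (gt X (160 * (4 * st)) MB)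
      (gt X (160 * (6 * st)) MB)) (fun p => bif bs p then eE st f p else 0)
      (fun p => bif bs p then eE st g p else 0) := by
  refine (((h.msk0 hM hf hg 0).add (h.msk0 hM hf hg (2 * st))).add
    ((h.msk0 hM hf hg (4 * st)).add (h.msk0 hM hf hg (6 * st)))).congr (fun i => ?_) fun i => ?_
  · cases bs i
    · rfl
    · rfl
  · cases bs i
    · rfl
    · rfl

theorem HN.od (hM : MB = Sm 301 (fun i => fo (Ms 0) (bs i)))
    (hN : NB = Sm 301 (fun i => fo (Ms 2) (bs i))) (h : HN X f g) (hf : Bd f) (hg : Bd g) :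
    HN (od3 (gt X (160 * (1 * st)) MB) (Nat.add (gt X (160 * (3 * st)) NB)
      (gt X (160 * (5 * st)) NB))) (fun p => bif bs p then eO st f p else 0)
      (fun p => bif bs p then eO st g p else 0) := by
  have a := h.msk0 hM hf hg (1 * st)
  have b := ((h.msk (s := 2) (by norm_num) hN hf hg (3 * st)).add
    (h.msk (s := 2) (by norm_num) hN hf hg (5 * st)))
  have b4 : HN (Nat.add (gt X (160 * (3 * st)) NB) (gt X (160 * (5 * st)) NB))
      (fun p => 2 ^ 2 * (bif bs p then bO st f p else 0))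
      (fun p => 2 ^ 2 * (bif bs p then bO st g p else 0)) := by
    refine b.congr (fun i => ?_) fun i => ?_
    · unfold bO
      cases bs i
      · rfl
      · simp only [cond_true]
        ring
    · unfold bO
      cases bs i
      · rfl
      · simp only [cond_true]
        ring
  have c := b4.shr
  refine ((a.add b4).sub c (fun i => ?_) fun i => ?_).congr (fun i => ?_) fun i => ?_
  · have h1 := a.f0 i
    have h2 := c.f0 i
    omega
  · have h1 := a.g0 i
    have h2 := c.g0 i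
    omega
  · unfold eO
    cases bs i
    · rfl
    · simp only [cond_true]
      ring
  · unfold eO
    cases bs i
    · rfl
    · simp only [cond_true]
      ring

/-- one level, packed again -/
def lvF (bs : ℕ → Bool) (st e : ℕ) (κ f : ℕ → ℤ) (q : ℕ) : ℤ :=
  (bif bs q then eE st f q + κ q - eO st f q else 0) +
    ((if e ≤ q then bif bs (q - e) then f (q - e) else 0 else 0) +
      (if 2 * e ≤ q then bif bs (q - 2 * e) then eE st f (q - 2 * e) + eO st f (q - 2 * e) else 0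
        else 0))

theorem HN.lv (hM : MB = Sm 301 (fun i => fo (Ms 0) (bs i)))
    (hN : NB = Sm 301 (fun i => fo (Ms 2) (bs i))) (h : HN X f g) (hf : Bd f) (hg : Bd g)
    (hK : HN K (fun i => bif bs i then κ i else 0) (fun i => bif bs i then κ i else 0))
    (kf : ∀ i, bs i = true → eO st f i ≤ κ i) (kg : ∀ i, bs i = true → eO st g i ≤ κ i) {e : ℕ}
    (hb : ∀ p, 301 ≤ p + 2 * e → bs p = false) :
    HN (nx1 K (160 * e) (160 * (2 * e)) (ev4 (gt X (160 * 0) MB) (gt X (160 * (2 * st)) MB)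
      (gt X (160 * (4 * st)) MB) (gt X (160 * (6 * st)) MB))
      (od3 (gt X (160 * (1 * st)) MB) (Nat.add (gt X (160 * (3 * st)) NB)
        (gt X (160 * (5 * st)) NB))) (gt X (160 * 0) MB))
      (lvF bs st e κ f) (lvF bs st e κ g) := by
  have hE := h.ev (st := st) hM hf hg
  have hO := h.od (st := st) hM hN hf hg
  have hc := h.msk0 hM hf hg 0
  have e0 : ∀ {φ : ℕ → ℤ}, (∀ i, 0 ≤ φ i) → ∀ i, 0 ≤ eE st φ i := fun h0 i => by
    unfold eE
    have := h0 i
    have := h0 (i + 2 * st)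
    have := h0 (i + 4 * st)
    have := h0 (i + 6 * st)
    omega
  refine (((hE.add hK).sub hO (fun i => ?_) fun i => ?_).add
    ((hc.shl (e := e) (fun i hi => ?_) fun i hi => ?_).add
      ((hE.add hO).shl (e := 2 * e) (fun i hi => ?_) fun i hi => ?_))).congr
    (fun i => ?_) fun i => ?_
  · cases hb' : bs i
    · exact le_rfl
    · simp only [cond_true]
      have := kf i hb'
      have := e0 h.f0 i
      omega
  · cases hb' : bs i
    · exact le_rfl
    · simp only [cond_true]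
      have := kg i hb'
      have := e0 h.g0 i
      omega
  · rw [hb i (by omega)]
    rfl
  · rw [hb i (by omega)]
    rfl
  · rw [hb i hi]
    rfl
  · rw [hb i hi]
    rfl
  · unfold lvF
    cases h1 : bs i <;> cases h2 : bs (i - e) <;> cases h3 : bs (i - 2 * e) <;>
      simp only [cond_true, cond_false, Nat.add_zero] <;> split_ifs <;> ring
  · unfold lvF
    cases h1 : bs i <;> cases h2 : bs (i - e) <;> cases h3 : bs (i - 2 * e) <;>
      simp only [cond_true, cond_false, Nat.add_zero] <;> split_ifs <;> ring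

end

/-! ### the offsets, kernel side -/

def nE (st : Nat) (f : Nat → Nat) (p : Nat) : Nat :=
  Nat.add (Nat.add (f p) (f (Nat.add p (Nat.mul (nat_lit 2) st))))
    (Nat.add (f (Nat.add p (Nat.mul (nat_lit 4) st))) (f (Nat.add p (Nat.mul (nat_lit 6) st))))
def nO (st : Nat) (f : Nat → Nat) (p : Nat) : Nat :=
  Nat.add (f (Nat.add p (Nat.mul (nat_lit 1) st))) (Nat.mul (nat_lit 3)
    (Nat.add (Nat.div (f (Nat.add p (Nat.mul (nat_lit 3) st))) (nat_lit 4))
      (Nat.div (f (Nat.add p (Nat.mul (nat_lit 5) st))) (nat_lit 4))))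
/-- `x` if `b` -/
def nI (b : Bool) (x : Nat) : Nat := Bool.rec (motive := fun _ => Nat) (nat_lit 0) x b
def nP (bs : Nat → Bool) (st e : Nat) (f : Nat → Nat) (q : Nat) : Nat :=
  Nat.add (nI (bs q) (Nat.add (nE st f q) (nO st f q)))
    (Nat.add (nI (and (Nat.ble e q) (bs (Nat.sub q e))) (f (Nat.sub q e)))
      (nI (and (Nat.ble (Nat.mul (nat_lit 2) e) q) (bs (Nat.sub q (Nat.mul (nat_lit 2) e))))
        (Nat.add (nE st f (Nat.sub q (Nat.mul (nat_lit 2) e)))
          (nO st f (Nat.sub q (Nat.mul (nat_lit 2) e))))))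

theorem nI_t (x : ℕ) : nI true x = x := rfl
theorem nI_f (x : ℕ) : nI false x = 0 := rfl

/-! ### the exact values -/

def rE (st : ℕ) (x : ℕ → ℝ) (p : ℕ) : ℝ :=
  (x p + x (p + 2 * st)) + (x (p + 4 * st) + x (p + 6 * st))
def rO (st : ℕ) (x : ℕ → ℝ) (p : ℕ) : ℝ :=
  x (p + 1 * st) + 3 / 4 * (x (p + 3 * st) + x (p + 5 * st))
def rP (bs : ℕ → Bool) (st e : ℕ) (x : ℕ → ℝ) (q : ℕ) : ℝ :=
  (bif bs q then rE st x q - rO st x q else 0) +
    ((if e ≤ q then bif bs (q - e) then x (q - e) else 0 else 0) +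
      (if 2 * e ≤ q then bif bs (q - 2 * e) then rE st x (q - 2 * e) + rO st x (q - 2 * e) else 0
        else 0))

/-- the invariant: numbers `f`, offsets `o`, exact values `x`, error `ε` -/
structure Inv (f : ℕ → ℤ) (o : ℕ → ℕ) (x : ℕ → ℝ) (ε : ℝ) : Prop where
  nn : ∀ i, 0 ≤ f i
  le : ∀ i, f i ≤ 2 * (o i : ℤ)
  er : ∀ i, |(f i : ℝ) - (o i + x i)| ≤ ε

/-- the offsets are divisible by `4` -/
def D4 (o : ℕ → ℕ) : Prop := ∀ i, 4 ∣ o i

section

variable {f : ℕ → ℤ} {o : ℕ → ℕ} {x : ℕ → ℝ} {ε : ℝ} {st : ℕ}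

theorem Inv.e0 (h : Inv f o x ε) (p : ℕ) : 0 ≤ eE st f p ∧ eE st f p ≤ 2 * (nE st o p : ℤ) := by
  have e : (nE st o p : ℤ) = (o p + o (p + 2 * st)) + (o (p + 4 * st) + o (p + 6 * st)) := by
    show (((o p + o (p + 2 * st)) + (o (p + 4 * st) + o (p + 6 * st)) : ℕ) : ℤ) = _
    push_cast
    rfl
  rw [e]
  unfold eE
  have a1 := h.nn p
  have a2 := h.nn (p + 2 * st)
  have a3 := h.nn (p + 4 * st)
  have a4 := h.nn (p + 6 * st)
  have b1 := h.le p
  have b2 := h.le (p + 2 * st)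
  have b3 := h.le (p + 4 * st)
  have b4 := h.le (p + 6 * st)
  constructor <;> omega

theorem nO_eq (p : ℕ) : (nO st o p : ℤ) = o (p + 1 * st) +
    3 * ((o (p + 3 * st) : ℤ) / 4 + (o (p + 5 * st) : ℤ) / 4) := by
  show ((o (p + 1 * st) + 3 * (o (p + 3 * st) / 4 + o (p + 5 * st) / 4) : ℕ) : ℤ) = _
  push_cast
  rfl

theorem Inv.o0 (h : Inv f o x ε) (hd : D4 o) (p : ℕ) :
    0 ≤ eO st f p ∧ eO st f p ≤ 2 * (nO st o p : ℤ) := by
  rw [nO_eq]
  unfold eO bO
  have a1 := h.nn (p + 1 * st)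
  have a2 := h.nn (p + 3 * st)
  have a3 := h.nn (p + 5 * st)
  have b1 := h.le (p + 1 * st)
  have b2 := h.le (p + 3 * st)
  have b3 := h.le (p + 5 * st)
  have c1 := hd (p + 3 * st)
  have c2 := hd (p + 5 * st)
  constructor <;> omega

theorem Inv.eE_er (h : Inv f o x ε) (p : ℕ) :
    |(eE st f p : ℝ) - (nE st o p + rE st x p)| ≤ 4 * ε := by
  have e : (nE st o p : ℝ) = (o p + o (p + 2 * st)) + (o (p + 4 * st) + o (p + 6 * st)) := by
    show (((o p + o (p + 2 * st)) + (o (p + 4 * st) + o (p + 6 * st)) : ℕ) : ℝ) = _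
    push_cast
    rfl
  rw [e]
  unfold eE rE
  push_cast
  have b1 := abs_le.1 (h.er p)
  have b2 := abs_le.1 (h.er (p + 2 * st))
  have b3 := abs_le.1 (h.er (p + 4 * st))
  have b4 := abs_le.1 (h.er (p + 6 * st))
  rw [abs_le]
  constructor <;> linarith [b1.1, b1.2, b2.1, b2.2, b3.1, b3.2, b4.1, b4.2]

/-- a quarter rounded down -/
theorem quart (z : ℤ) : (z : ℝ) / 4 - 1 ≤ ((z / 4 : ℤ) : ℝ) ∧ ((z / 4 : ℤ) : ℝ) ≤ (z : ℝ) / 4 := by
  have h1 : 4 * (z / 4) ≤ z := by omega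
  have h2 : z ≤ 4 * (z / 4) + 3 := by omega
  have h1' : (4 : ℝ) * ((z / 4 : ℤ) : ℝ) ≤ z := by exact_mod_cast h1
  have h2' : (z : ℝ) ≤ 4 * ((z / 4 : ℤ) : ℝ) + 3 := by exact_mod_cast h2
  constructor <;> linarith

theorem Inv.eO_er (h : Inv f o x ε) (hd : D4 o) (p : ℕ) :
    |(eO st f p : ℝ) - (nO st o p + rO st x p)| ≤ 3 * ε + 6 := by
  have e : (nO st o p : ℝ) = o (p + 1 * st) + 3 / 4 * (o (p + 3 * st) + o (p + 5 * st)) := by
    obtain ⟨a, ha⟩ := hd (p + 3 * st)
    obtain ⟨b, hb⟩ := hd (p + 5 * st)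
    have e1 : nO st o p = o (p + 1 * st) + 3 * (a + b) := by
      show o (p + 1 * st) + 3 * (o (p + 3 * st) / 4 + o (p + 5 * st) / 4) = _
      rw [ha, hb, Nat.mul_div_cancel_left _ (by norm_num), Nat.mul_div_cancel_left _ (by norm_num)]
    rw [e1, ha, hb]
    push_cast
    ring
  have e2 : (eO st f p : ℝ) = (f (p + 1 * st) : ℝ) + 3 * (((f (p + 3 * st) / 4 : ℤ) : ℝ) +
      ((f (p + 5 * st) / 4 : ℤ) : ℝ)) := by
    unfold eO bO
    push_cast
    norm_num
  rw [e, e2]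
  unfold rO
  have q1 := quart (f (p + 3 * st))
  have q2 := quart (f (p + 5 * st))
  have b1 := abs_le.1 (h.er (p + 1 * st))
  have b2 := abs_le.1 (h.er (p + 3 * st))
  have b3 := abs_le.1 (h.er (p + 5 * st))
  have hε : 0 ≤ ε := (abs_nonneg _).trans (h.er 0)
  rw [abs_le]
  constructor <;> linarith [q1.1, q1.2, q2.1, q2.2, b1.1, b1.2, b2.1, b2.2, b3.1, b3.2]

theorem if_bif {R : Type*} [Zero R] (e q : ℕ) (b : Bool) (A : R) :
    (if e ≤ q then (bif b then A else 0) else 0) = bif (and (Nat.ble e q) b) then A else 0 := by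
  by_cases h : e ≤ q
  · have e1 : Nat.ble e q = true := Nat.ble_eq_true_of_le h
    rw [if_pos h, e1]
    rfl
  · have e1 : Nat.ble e q = false := by
      cases h2 : Nat.ble e q
      · rfl
      · exact absurd (Nat.le_of_ble_eq_true h2) h
    rw [if_neg h, e1]
    rfl

theorem tm_b {b : Bool} {A : ℤ} {N : ℕ} (h : 0 ≤ A ∧ A ≤ 2 * (N : ℤ)) :
    0 ≤ (bif b then A else 0) ∧ (bif b then A else 0) ≤ 2 * ((nI b N : ℕ) : ℤ) := by
  cases b
  · exact ⟨le_rfl, le_rfl⟩
  · exact h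

theorem tm_e {b : Bool} {A : ℤ} {N : ℕ} {r δ : ℝ} (h : |(A : ℝ) - (N + r)| ≤ δ) :
    |((bif b then A else 0 : ℤ) : ℝ) - ((nI b N : ℕ) + (bif b then r else 0))| ≤ δ := by
  cases b
  · have h0 : 0 ≤ δ := (abs_nonneg _).trans h
    show |((0 : ℤ) : ℝ) - (((0 : ℕ) : ℝ) + 0)| ≤ δ
    simpa using h0
  · exact h

/-- ONE LEVEL -/
theorem Inv.lv (h : Inv f o x ε) (hd : D4 o) (bs : ℕ → Bool) (e : ℕ) :
    Inv (lvF bs st e (fun p => 2 * (nO st o p : ℤ)) f) (nP bs st e o) (rP bs st e x)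
      (15 * ε + 12) := by
  have hε : 0 ≤ ε := (abs_nonneg _).trans (h.er 0)
  have key : ∀ q, lvF bs st e (fun p => 2 * (nO st o p : ℤ)) f q =
      (bif bs q then eE st f q + 2 * (nO st o q : ℤ) - eO st f q else 0) +
      ((bif (and (Nat.ble e q) (bs (q - e))) then f (q - e) else 0) +
      (bif (and (Nat.ble (2 * e) q) (bs (q - 2 * e))) then
        eE st f (q - 2 * e) + eO st f (q - 2 * e) else 0)) := fun q => by
    unfold lvF
    rw [if_bif, if_bif]
  have key2 : ∀ q, rP bs st e x q =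
      (bif bs q then rE st x q - rO st x q else 0) +
      ((bif (and (Nat.ble e q) (bs (q - e))) then x (q - e) else 0) +
      (bif (and (Nat.ble (2 * e) q) (bs (q - 2 * e))) then
        rE st x (q - 2 * e) + rO st x (q - 2 * e) else 0)) := fun q => by
    unfold rP
    rw [if_bif, if_bif]
  have key3 : ∀ q, nP bs st e o q = nI (bs q) (nE st o q + nO st o q) +
      (nI (and (Nat.ble e q) (bs (q - e))) (o (q - e)) +
      nI (and (Nat.ble (2 * e) q) (bs (q - 2 * e)))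
        (nE st o (q - 2 * e) + nO st o (q - 2 * e))) := fun q => rfl
  have b1 : ∀ q, 0 ≤ eE st f q + 2 * (nO st o q : ℤ) - eO st f q ∧
      eE st f q + 2 * (nO st o q : ℤ) - eO st f q ≤ 2 * ((nE st o q + nO st o q : ℕ) : ℤ) := by
    intro q
    have h1 := h.e0 (st := st) q
    have h2 := h.o0 (st := st) hd q
    push_cast
    constructor <;> omega
  have b3 : ∀ q, 0 ≤ eE st f q + eO st f q ∧
      eE st f q + eO st f q ≤ 2 * ((nE st o q + nO st o q : ℕ) : ℤ) := by
    intro q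
    have h1 := h.e0 (st := st) q
    have h2 := h.o0 (st := st) hd q
    push_cast
    constructor <;> omega
  have c1 : ∀ q, |((eE st f q + 2 * (nO st o q : ℤ) - eO st f q : ℤ) : ℝ) -
      (((nE st o q + nO st o q : ℕ) : ℝ) + (rE st x q - rO st x q))| ≤ 7 * ε + 6 := by
    intro q
    have h1 := abs_le.1 (h.eE_er (st := st) q)
    have h2 := abs_le.1 (h.eO_er (st := st) hd q)
    push_cast
    rw [abs_le]
    constructor <;> linarith [h1.1, h1.2, h2.1, h2.2]
  have c3 : ∀ q, |((eE st f q + eO st f q : ℤ) : ℝ) -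
      (((nE st o q + nO st o q : ℕ) : ℝ) + (rE st x q + rO st x q))| ≤ 7 * ε + 6 := by
    intro q
    have h1 := abs_le.1 (h.eE_er (st := st) q)
    have h2 := abs_le.1 (h.eO_er (st := st) hd q)
    push_cast
    rw [abs_le]
    constructor <;> linarith [h1.1, h1.2, h2.1, h2.2]
  refine ⟨fun q => ?_, fun q => ?_, fun q => ?_⟩
  · rw [key]
    have t1 := (tm_b (b := bs q) (b1 q)).1
    have t2 := (tm_b (b := and (Nat.ble e q) (bs (q - e))) ⟨h.nn (q - e), h.le (q - e)⟩).1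
    have t3 := (tm_b (b := and (Nat.ble (2 * e) q) (bs (q - 2 * e))) (b3 (q - 2 * e))).1
    omega
  · rw [key, key3]
    have t1 := (tm_b (b := bs q) (b1 q)).2
    have t2 := (tm_b (b := and (Nat.ble e q) (bs (q - e))) ⟨h.nn (q - e), h.le (q - e)⟩).2
    have t3 := (tm_b (b := and (Nat.ble (2 * e) q) (bs (q - 2 * e))) (b3 (q - 2 * e))).2
    push_cast
    omega
  · rw [key, key2, key3]
    have t1 := abs_le.1 (tm_e (b := bs q) (c1 q))
    have t2 := abs_le.1 (tm_e (b := and (Nat.ble e q) (bs (q - e))) (h.er (q - e)))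
    have t3 := abs_le.1 (tm_e (b := and (Nat.ble (2 * e) q) (bs (q - 2 * e))) (c3 (q - 2 * e)))
    push_cast
    rw [abs_le]
    constructor <;> linarith [t1.1, t1.2, t2.1, t2.2, t3.1, t3.2]

end

theorem nP_z {bs : ℕ → Bool} {st e : ℕ} (o : ℕ → ℕ) (hb : ∀ p, 301 ≤ p + 2 * e → bs p = false)
    {q : ℕ} (hq : 301 ≤ q) : nP bs st e o q = 0 := by
  have key3 : nP bs st e o q = nI (bs q) (nE st o q + nO st o q) +
      (nI (and (Nat.ble e q) (bs (q - e))) (o (q - e)) +
      nI (and (Nat.ble (2 * e) q) (bs (q - 2 * e)))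
        (nE st o (q - 2 * e) + nO st o (q - 2 * e))) := rfl
  rw [key3, hb q (by omega), hb (q - e) (by omega), hb (q - 2 * e) (by omega)]
  cases Nat.ble e q <;> cases Nat.ble (2 * e) q <;> rfl

theorem rP_z {bs : ℕ → Bool} {st e : ℕ} (x : ℕ → ℝ) (hb : ∀ p, 301 ≤ p + 2 * e → bs p = false)
    {q : ℕ} (hq : 301 ≤ q) : rP bs st e x q = 0 := by
  unfold rP
  rw [hb q (by omega), hb (q - e) (by omega), hb (q - 2 * e) (by omega)]
  simp

/-- bounds of the numbers from those of the offsets -/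
theorem Inv.bd {f : ℕ → ℤ} {o : ℕ → ℕ} {x : ℕ → ℝ} {ε : ℝ} (h : Inv f o x ε)
    (ho : ∀ i < 301, o i < 2 ^ 79) (hz : ∀ i, 301 ≤ i → o i = 0) : Bd f := by
  have k : ∀ i, 301 ≤ i → f i = 0 := fun i hi => by
    have h1 := h.le i
    have h2 := h.nn i
    rw [hz i hi] at h1
    push_cast at h1
    omega
  refine ⟨fun i => ?_, k⟩
  rcases lt_or_ge i 301 with hi | hi
  · have h1 := h.le i
    have h2 : (o i : ℤ) < 2 ^ 79 := by exact_mod_cast ho i hi
    have e : (2 : ℤ) ^ 80 = 2 * 2 ^ 79 := by norm_num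
    omega
  · rw [k i hi]
    norm_num

end Pool.Agent.Helper91.FU.N1
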