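import Pool.Agent.Helper90.FU.N1B

/-!
Fused machine (MP_c75db0, star frame), row N1: the fields of the leaves.
-/

set_option autoImplicit false
set_option exponentiation.threshold 100000
noncomputable section
namespace Pool.Agent.Helper91.FU.N1

open Finset
open Pool.Agent.Helper91
open Pool.Agent.Helper91.TM (Sm Sz Sp fo fo_t fo_f land_split Sm_land Sm_shift Sm_congr Sm_eq Sm_add
  Sm_mul Sm_lt)
open Pool.Agent.Helper55.CV (RN cst55)
open Pool.Agent.Helper17.N9 (MR2)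

/-- the digits `7 m + 2 n`, `m, n < 3` -/
def b0 (p : Nat) : Bool := and (Nat.blt p (nat_lit 19))
  (or (Nat.beq (Nat.mod p (nat_lit 7)) (nat_lit 0)) (or (Nat.beq (Nat.mod p (nat_lit 7)) (nat_lit 2))
    (Nat.beq (Nat.mod p (nat_lit 7)) (nat_lit 4))))

theorem b0_z {p : ℕ} (h : 19 ≤ p) : b0 p = false := by
  have e : Nat.blt p 19 = false := by
    cases h2 : Nat.blt p 19
    · rfl
    · rw [Nat.blt_eq] at h2
      omega
  show (Nat.blt p 19 && _) = false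
  rw [e]
  rfl

/-- the neighbours of a digit in use are not in use -/
theorem b0_nb : ∀ p < 19, b0 p = true → b0 (p + 1) = false ∧ (1 ≤ p → b0 (p - 1) = false) := by
  decide +kernel

theorem and_MR2 (x : ℕ) : x &&& MR2 = x % 2 ^ 64 + 2 ^ 128 * (x / 2 ^ 128 % 2 ^ 64) := by
  have e : MR2 = (2 ^ 64 - 1) + 2 ^ 128 * (2 ^ 64 - 1) := by
    have : MR2 = 6277101735386680763495507056286727952657427581105975853055 := rfl
    rw [this]
    norm_num
  have e2 : x = x % 2 ^ 128 + 2 ^ 128 * (x / 2 ^ 128) := (Nat.mod_add_div x (2 ^ 128)).symm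
  rw [e]
  conv_lhs => rw [e2]
  rw [land_split (Nat.mod_lt _ (by positivity)) (by norm_num), Nat.and_two_pow_sub_one_eq_mod,
    Nat.and_two_pow_sub_one_eq_mod]
  congr 1
  exact Nat.mod_mod_of_dvd _ (by norm_num)

theorem Sm_bd {e : ℕ → ℕ} (h : ∀ i, e i ≤ 2 ^ 224) (n : ℕ) :
    Sm n e * 2 ^ 160 ≤ 2 ^ 225 * 2 ^ (160 * n) := by
  induction n with
  | zero => simp [Sm]
  | succ n ih =>
    have e1 : 2 ^ (160 * (n + 1)) = 2 ^ 160 * 2 ^ (160 * n) := by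
      rw [show 160 * (n + 1) = 160 + 160 * n by ring, pow_add]
    have h1 := Nat.mul_le_mul_right (2 ^ (160 * n) * 2 ^ 160) (h n)
    rw [Sm, e1]
    have h2 : (2 ^ 225 + 2 ^ 224 * 2 ^ 160) * 2 ^ (160 * n) ≤
        2 ^ 225 * 2 ^ 160 * 2 ^ (160 * n) := Nat.mul_le_mul_right _ (by norm_num)
    calc (Sm n e + e n * 2 ^ (160 * n)) * 2 ^ 160 =
          Sm n e * 2 ^ 160 + e n * (2 ^ (160 * n) * 2 ^ 160) := by ring
      _ ≤ 2 ^ 225 * 2 ^ (160 * n) + 2 ^ 224 * (2 ^ (160 * n) * 2 ^ 160) := add_le_add ih h1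
      _ = (2 ^ 225 + 2 ^ 224 * 2 ^ 160) * 2 ^ (160 * n) := by ring
      _ ≤ 2 ^ 225 * 2 ^ 160 * 2 ^ (160 * n) := h2
      _ = 2 ^ 225 * (2 ^ 160 * 2 ^ (160 * n)) := by ring

/-- a sparse number: the part from a digit in use on -/
theorem Sm_at {e : ℕ → ℕ} (h : ∀ i, e i ≤ 2 ^ 224) (hz : ∀ i, b0 i = false → e i = 0) {q : ℕ}
    (hq : b0 q = true) : ∃ T, Sm 301 e / 2 ^ (160 * q) = e q + 2 ^ 320 * T := by
  have hq19 : q < 19 := by
    by_contra hc
    rw [b0_z (by omega)] at hq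
    exact absurd hq (by decide)
  obtain ⟨n1, n2⟩ := b0_nb q hq19 hq
  have e1 : Sm 301 e = Sm q e + 2 ^ (160 * q) * (e q + 2 ^ 320 *
      Sm (299 - q) (fun i => e (q + 2 + i))) := by
    have s1 : 301 = q + (1 + (1 + (299 - q))) := by omega
    have s2 : ∀ m (d : ℕ → ℕ) (a : ℕ), Sm (a + m) d = Sm a d + 2 ^ (160 * a) *
        Sm m (fun i => d (a + i)) := by
      intro m d a
      rw [Sm_eq, Sm_eq, Sm_eq, Finset.sum_range_add, Finset.mul_sum]
      congr 1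
      refine Finset.sum_congr rfl fun i _ => ?_
      rw [show 160 * (a + i) = 160 * a + 160 * i by ring, pow_add]
      ring
    have s3 : ∀ d : ℕ → ℕ, Sm 1 d = d 0 := fun d => by
      show 0 + d 0 * 2 ^ (160 * 0) = d 0
      rw [mul_zero, pow_zero, mul_one, zero_add]
    have s4 : Sm 301 e = Sm (q + (1 + (1 + (299 - q)))) e := by rw [← s1]
    rw [s4, s2, s2, s2, s3, s3]
    have z : e (q + (1 + 0)) = 0 := hz _ n1
    rw [z, zero_add, Nat.add_zero]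
    have e5 : (fun i => e (q + (1 + (1 + i)))) = fun i => e (q + 2 + i) := by
      funext i
      congr 1
      omega
    rw [e5]
    ring
  have lo : Sm q e < 2 ^ (160 * q) := by
    rcases Nat.eq_zero_or_pos q with h0 | h0
    · rw [h0]
      show 0 < _
      positivity
    · obtain ⟨m, rfl⟩ : ∃ m, q = m + 1 := ⟨q - 1, by omega⟩
      have z : e m = 0 := hz m (n2 (by omega))
      rw [Sm, z, zero_mul, add_zero]
      have h1 := Sm_bd h m
      have h2 : 2 ^ 225 * 2 ^ (160 * m) < 2 ^ (160 * (m + 1)) * 2 ^ 160 := by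
        rw [show 160 * (m + 1) = 160 + 160 * m by ring, pow_add]
        have : (2 : ℕ) ^ 225 < 2 ^ 160 * 2 ^ 160 := by norm_num
        have h3 := Nat.mul_lt_mul_of_pos_right this (show 0 < 2 ^ (160 * m) by positivity)
        calc 2 ^ 225 * 2 ^ (160 * m) < 2 ^ 160 * 2 ^ 160 * 2 ^ (160 * m) := h3
          _ = 2 ^ 160 * 2 ^ (160 * m) * 2 ^ 160 := by ring
      exact Nat.lt_of_mul_lt_mul_right (lt_of_le_of_lt h1 h2)
  refine ⟨Sm (299 - q) (fun i => e (q + 2 + i)), ?_⟩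
  rw [e1, Nat.add_mul_div_left _ _ (by positivity), Nat.div_eq_of_lt lo, zero_add]

/-- the two halves of a field -/
theorem fld {A B T K : ℕ} (hK : K ≤ 54) (hA : A < 2 ^ (K + 41)) (hB : B < 2 ^ (K + 41)) :
    ((A + B * 2 ^ 128 + 2 ^ 320 * T) / 2 ^ K) &&& MR2 = A / 2 ^ K + 2 ^ 128 * (B / 2 ^ K) := by
  have p1 : (2 : ℕ) ^ 128 = 2 ^ K * 2 ^ (128 - K) := by
    rw [← pow_add]
    congr 1
    omega
  have e1 : A + B * 2 ^ 128 + 2 ^ 320 * T = A + 2 ^ K * (2 ^ (128 - K) * (B + 2 ^ 192 * T)) := by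
    have p2 : (2 : ℕ) ^ 320 = 2 ^ 128 * 2 ^ 192 := by rw [← pow_add]
    calc A + B * 2 ^ 128 + 2 ^ 320 * T = A + 2 ^ 128 * (B + 2 ^ 192 * T) := by
          rw [p2]
          ring
      _ = _ := by
          rw [p1]
          ring
  have a41 : A / 2 ^ K < 2 ^ 41 := by
    rw [Nat.div_lt_iff_lt_mul (by positivity), ← pow_add, Nat.add_comm 41 K]
    exact hA
  have b41 : B / 2 ^ K < 2 ^ 41 := by
    rw [Nat.div_lt_iff_lt_mul (by positivity), ← pow_add, Nat.add_comm 41 K]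
    exact hB
  rw [e1, Nat.add_mul_div_left _ _ (by positivity), and_MR2]
  have m1 : (A / 2 ^ K + 2 ^ (128 - K) * (B + 2 ^ 192 * T)) % 2 ^ 64 = A / 2 ^ K := by
    have p3 : (2 : ℕ) ^ (128 - K) = 2 ^ 64 * 2 ^ (64 - K) := by
      rw [← pow_add]
      congr 1
      omega
    rw [p3, mul_assoc, Nat.add_mul_mod_self_left, Nat.mod_eq_of_lt]
    exact a41.trans (by norm_num)
  have m2 : (A / 2 ^ K + 2 ^ (128 - K) * (B + 2 ^ 192 * T)) / 2 ^ 128 % 2 ^ 64 = B / 2 ^ K := by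
    have p4 : (2 : ℕ) ^ 128 = 2 ^ (128 - K) * 2 ^ K := by
      rw [p1]
      ring
    have a128 : A / 2 ^ K < 2 ^ (128 - K) :=
      lt_of_lt_of_le a41 (Nat.pow_le_pow_right (by norm_num) (by omega))
    have p5 : (2 : ℕ) ^ 192 = 2 ^ K * (2 ^ 64 * 2 ^ (128 - K)) := by
      rw [← pow_add, ← pow_add]
      congr 1
      omega
    rw [p4, ← Nat.div_div_eq_div_mul, Nat.add_mul_div_left _ _ (by positivity),
      Nat.div_eq_of_lt a128, zero_add, p5, mul_assoc, Nat.add_mul_div_left _ _ (by positivity),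
      mul_assoc, Nat.add_mul_mod_self_left, Nat.mod_eq_of_lt]
    exact b41.trans (by norm_num)
  rw [m1, m2]

theorem mL_eq : mL = Sm 301 (fun i => fo (2 ^ 80 - 1) (b0 i)) := cst55 (by decide +kernel)
theorem p4_eq : ∃ c : ℕ, c = 2 ^ 40 * (1 + 2 ^ 128) ∧ p4 = Sm 301 (fun i => nI (b0 i) c) :=
  ⟨374144419156711147060143317175368453033018242629632, by norm_num, cstH (by decide +kernel)⟩

/-- the digits `F + 2 ^ 80 G` in use, offsets `o` -/
structure LB (F : ℕ → ℤ) (o : ℕ → ℕ) (i : ℕ) : Prop where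
  nn : 0 ≤ F i
  lt : F i < 2 ^ 80
  lo : -(2 ^ 73 : ℤ) ≤ F i - o i
  hi : F i - o i < 2 ^ 73

section

variable {X : ℕ} {F G : ℕ → ℤ} {o : ℕ → ℕ}

theorem LB.to (h : ∀ i, b0 i = true → LB F o i) {i : ℕ} (hb : b0 i = true) :
    (((F i).toNat : ℕ) : ℤ) = F i ∧ (F i).toNat < 2 ^ 80 := by
  have h1 := (h i hb).nn
  have h2 := (h i hb).lt
  constructor
  · exact Int.toNat_of_nonneg h1
  · omega

theorem leaf_X (hX : HN X (fun i => bif b0 i then F i else 0) (fun i => bif b0 i then G i else 0))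
    (bF : ∀ i, b0 i = true → LB F o i) (bG : ∀ i, b0 i = true → LB G o i) :
    X = Sm 301 (fun i => nI (b0 i) ((F i).toNat + 2 ^ 80 * (G i).toNat)) ∧
      ∀ i < 301, nI (b0 i) ((F i).toNat + 2 ^ 80 * (G i).toNat) < 2 ^ 160 := by
  constructor
  · refine (hX.rn.nat).trans (Sm_congr fun i _ => ?_)
    show ((bif b0 i then F i else 0) + 2 ^ 80 * (bif b0 i then G i else 0)).toNat = _
    cases hb : b0 i
    · rfl
    · have h1 := (bF i hb).nn
      have h2 := (bG i hb).nn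
      rw [cond_true, cond_true, nI_t]
      omega
  · intro i _
    cases hb : b0 i
    · rw [nI_f]; norm_num
    · have h1 := (LB.to bF hb).2
      have h2 := (LB.to bG hb).2
      rw [nI_t]
      omega

theorem fo_lt {b : Bool} {s : ℕ} (hs : 80 ≤ s) : fo (2 ^ 80 - 1) b < 2 ^ s := by
  have h : (2 : ℕ) ^ 80 ≤ 2 ^ s := Nat.pow_le_pow_right (by norm_num) hs
  cases b
  · rw [fo_f]; positivity
  · rw [fo_t]; omega

theorem leaf_L (hX : HN X (fun i => bif b0 i then F i else 0) (fun i => bif b0 i then G i else 0))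
    (bF : ∀ i, b0 i = true → LB F o i) (bG : ∀ i, b0 i = true → LB G o i) :
    X &&& mL = Sm 301 (fun i => nI (b0 i) (F i).toNat) := by
  obtain ⟨eX, d160⟩ := leaf_X hX bF bG
  have h1 := Sm_land (m := fun i => fo (2 ^ 80 - 1) (b0 i)) d160 (fun i _ => fo_lt (by norm_num)) 0
  rw [mul_zero, add_zero, ← eX, ← mL_eq] at h1
  refine h1.trans (Sm_congr fun i _ => ?_)
  show nI (b0 i) ((F i).toNat + 2 ^ 80 * (G i).toNat) &&& fo (2 ^ 80 - 1) (b0 i) = _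
  cases hb : b0 i
  · rw [nI_f, nI_f, Nat.zero_and]
  · rw [nI_t, nI_t, fo_t, Nat.and_two_pow_sub_one_eq_mod, Nat.add_mul_mod_self_left,
      Nat.mod_eq_of_lt (LB.to bF hb).2]

theorem leaf_I (hX : HN X (fun i => bif b0 i then F i else 0) (fun i => bif b0 i then G i else 0))
    (bF : ∀ i, b0 i = true → LB F o i) (bG : ∀ i, b0 i = true → LB G o i) :
    gt X 80 mL = Sm 301 (fun i => nI (b0 i) (G i).toNat) := by
  obtain ⟨eX, d160⟩ := leaf_X hX bF bG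
  have e0 : gt X 80 mL = (X / 2 ^ 80) &&& mL := by
    show (X >>> 80) &&& mL = _
    rw [Nat.shiftRight_eq_div_pow]
  have h1 := Sm_shift (s := 80) (by norm_num) (m := fun i => fo (2 ^ 80 - 1) (b0 i)) d160
    (fun i _ => fo_lt (by norm_num)) 0
  rw [mul_zero, add_zero, ← eX, ← mL_eq] at h1
  rw [e0, h1]
  refine Sm_congr fun i _ => ?_
  show nI (b0 i) ((F i).toNat + 2 ^ 80 * (G i).toNat) / 2 ^ 80 &&& fo (2 ^ 80 - 1) (b0 i) = _
  cases hb : b0 i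
  · rw [nI_f, nI_f, Nat.zero_div, Nat.zero_and]
  · rw [nI_t, nI_t, fo_t, Nat.and_two_pow_sub_one_eq_mod, Nat.add_mul_div_left _ _ (by positivity),
      Nat.div_eq_of_lt (LB.to bF hb).2, zero_add, Nat.mod_eq_of_lt (LB.to bG hb).2]

/-- the offsets after the shift -/
theorem leaf_s {s k K : ℕ} (hk : k ≤ 20) (hK : K = 34 + k)
    (hs : s = Sm 301 (fun i => nI (b0 i) (o i / 2 ^ 34 * (1 + 2 ^ 128))))
    (ho : ∀ i, b0 i = true → 2 ^ 54 ∣ o i) :
    Nat.shiftRight s k = Sm 301 (fun i => nI (b0 i) (o i / 2 ^ K * (1 + 2 ^ 128))) := by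
  have e1 : Nat.shiftRight s k = s / 2 ^ k := Nat.shiftRight_eq_div_pow _ _
  have e2 : s = Sm 301 (fun i => nI (b0 i) (o i / 2 ^ K * (1 + 2 ^ 128))) * 2 ^ k := by
    refine hs.trans ?_
    rw [← Sm_mul]
    refine Sm_congr fun i _ => ?_
    cases hb : b0 i
    · rw [nI_f, nI_f, zero_mul]
    · rw [nI_t, nI_t]
      obtain ⟨c, hc⟩ := ho i hb
      have p1 : (2 : ℕ) ^ 54 = 2 ^ 34 * 2 ^ 20 := by norm_num
      have p2 : (2 : ℕ) ^ 20 = 2 ^ (20 - k) * 2 ^ k := by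
        rw [← pow_add]
        congr 1
        omega
      have p3 : (2 : ℕ) ^ K = 2 ^ 34 * 2 ^ k := by rw [hK, pow_add]
      have q1 : o i / 2 ^ 34 = 2 ^ 20 * c := by
        rw [hc, p1, mul_assoc, Nat.mul_div_cancel_left _ (by positivity)]
      have q2 : o i / 2 ^ K = 2 ^ (20 - k) * c := by
        rw [hc, p1, p3, p2]
        rw [show 2 ^ 34 * (2 ^ (20 - k) * 2 ^ k) * c = (2 ^ 34 * 2 ^ k) * (2 ^ (20 - k) * c) by ring]
        exact Nat.mul_div_cancel_left _ (by positivity)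
      rw [q1, q2, p2]
      ring
  rw [e1]
  conv_lhs => rw [e2]
  exact Nat.mul_div_cancel _ (by positivity)

/-- the part above the offset -/
def aF (F : ℕ → ℤ) (o : ℕ → ℕ) (K : ℕ) (i : ℕ) : ℕ := (F i - o i + 2 ^ (40 + K)).toNat

theorem aF_ok {K : ℕ} (hK : 34 ≤ K) {i : ℕ} (h : LB F o i) :
    ((aF F o K i : ℕ) : ℤ) = F i - o i + 2 ^ (40 + K) ∧ aF F o K i < 2 ^ (K + 41) := by
  have p74 : (2 : ℤ) ^ 74 ≤ 2 ^ (40 + K) := pow_le_pow_right₀ (by norm_num) (by omega)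
  have p41 : (2 : ℤ) ^ (K + 41) = 2 ^ (40 + K) + 2 ^ (40 + K) := by
    rw [show K + 41 = 40 + K + 1 by ring, pow_succ]
    ring
  have h1 := h.lo
  have h2 := h.hi
  have p73 : (2 : ℤ) ^ 74 = 2 ^ 73 + 2 ^ 73 := by norm_num
  have e : ((aF F o K i : ℕ) : ℤ) = F i - o i + 2 ^ (40 + K) :=
    Int.toNat_of_nonneg (by linarith)
  refine ⟨e, ?_⟩
  have : ((aF F o K i : ℕ) : ℤ) < ((2 ^ (K + 41) : ℕ) : ℤ) := by
    rw [e]
    push_cast
    rw [p41]
    linarith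
  exact_mod_cast this

theorem dv54 {K a : ℕ} (hK : K ≤ 54) (h : 2 ^ 54 ∣ a) : a / 2 ^ K * 2 ^ K = a := by
  have h1 : 2 ^ K ∣ 2 ^ 54 := pow_dvd_pow 2 hK
  exact Nat.div_mul_cancel (dvd_trans h1 h)

theorem leaf_d {K a b F G o A B d c : ℕ} (hc : c = 2 ^ 40 * (1 + 2 ^ 128)) (e1 : a = F)
    (e2 : b = G) (hd : d * 2 ^ K = o)
    (hA : A + o = F + 2 ^ 40 * 2 ^ K) (hB : B + o = G + 2 ^ 40 * 2 ^ K) :
    a + b * 2 ^ 128 + c * 2 ^ K = A + B * 2 ^ 128 + d * (1 + 2 ^ 128) * 2 ^ K := by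
  rw [hc]
  rw [show d * (1 + 2 ^ 128) * 2 ^ K = (d * 2 ^ K) * (1 + 2 ^ 128) by ring, hd, e1, e2]
  have h3 : A + B * 2 ^ 128 + o * (1 + 2 ^ 128) = (A + o) + (B + o) * 2 ^ 128 := by ring
  rw [h3, hA, hB]
  ring

theorem aF_nat {K : ℕ} (hK : 34 ≤ K) {i : ℕ} (h : LB F o i) :
    aF F o K i + o i = (F i).toNat + 2 ^ 40 * 2 ^ K := by
  have e0 := (aF_ok hK h).1
  have e1 : (((F i).toNat : ℕ) : ℤ) = F i := Int.toNat_of_nonneg h.nn
  have : ((aF F o K i + o i : ℕ) : ℤ) = (((F i).toNat + 2 ^ 40 * 2 ^ K : ℕ) : ℤ) := by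
    push_cast
    rw [e0, e1, pow_add]
    ring
  exact_mod_cast this

theorem leaf_key {K : ℕ} (hK : 34 ≤ K) (hK' : K ≤ 54) (ho : ∀ i, b0 i = true → 2 ^ 54 ∣ o i)
    (bF : ∀ i, b0 i = true → LB F o i) (bG : ∀ i, b0 i = true → LB G o i) :
    (Sm 301 (fun i => nI (b0 i) (F i).toNat) + Sm 301 (fun i => nI (b0 i) (G i).toNat) * 2 ^ 128) +
      p4 * 2 ^ K = Sm 301 (fun i => nI (b0 i) (aF F o K i + aF G o K i * 2 ^ 128)) +
        Sm 301 (fun i => nI (b0 i) (o i / 2 ^ K * (1 + 2 ^ 128))) * 2 ^ K := by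
  obtain ⟨c, hc, e4⟩ := p4_eq
  rw [e4, ← Sm_mul, ← Sm_mul, ← Sm_mul, ← Sm_add, ← Sm_add, ← Sm_add]
  refine Sm_congr fun i _ => ?_
  cases hb : b0 i
  · show 0 + 0 * 2 ^ 128 + 0 * 2 ^ K = 0 + 0 * 2 ^ K
    ring
  · have h1 := dv54 hK' (ho i hb)
    have h2 := aF_nat hK (bF i hb)
    have h3 := aF_nat hK (bG i hb)
    have h4 := leaf_d hc rfl rfl h1 h2 h3
    rw [nI_t, nI_t, nI_t, nI_t, nI_t]
    exact h4

theorem leaf_W {s k K : ℕ} (hk : k ≤ 20) (hK : K = 34 + k)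
    (hX : HN X (fun i => bif b0 i then F i else 0) (fun i => bif b0 i then G i else 0))
    (hs : s = Sm 301 (fun i => nI (b0 i) (o i / 2 ^ 34 * (1 + 2 ^ 128))))
    (ho : ∀ i, b0 i = true → 2 ^ 54 ∣ o i)
    (bF : ∀ i, b0 i = true → LB F o i) (bG : ∀ i, b0 i = true → LB G o i) :
    trU k s X = Sm 301 (fun i => nI (b0 i) (aF F o K i + aF G o K i * 2 ^ 128)) / 2 ^ K := by
  have key := leaf_key (K := K) (by omega) (by omega) ho bF bG
  have es := leaf_s hk hK hs ho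
  rw [← leaf_L hX bF bG, ← leaf_I hX bF bG, ← es] at key
  have e0 : trU k s X = ((X &&& mL) + gt X 80 mL * 2 ^ 128) / 2 ^ K + p4 - Nat.shiftRight s k := by
    have e2 : Nat.shiftLeft (gt X 80 mL) 128 = gt X 80 mL * 2 ^ 128 := Nat.shiftLeft_eq _ _
    have e3 : Nat.shiftRight (Nat.add (Nat.land X mL) (gt X 80 mL * 2 ^ 128)) K =
        ((X &&& mL) + gt X 80 mL * 2 ^ 128) / 2 ^ K := Nat.shiftRight_eq_div_pow _ _
    rw [← e3, ← e2, hK]
    rfl
  have pK : 0 < 2 ^ K := by positivity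
  generalize (X &&& mL) + gt X 80 mL * 2 ^ 128 = N at key e0
  generalize Nat.shiftRight s k = s' at key e0
  generalize Sm 301 (fun i => nI (b0 i) (aF F o K i + aF G o K i * 2 ^ 128)) = Z at key
  have h1 : (N + p4 * 2 ^ K) / 2 ^ K = N / 2 ^ K + p4 := Nat.add_mul_div_right _ _ pK
  have h2 : (Z + s' * 2 ^ K) / 2 ^ K = Z / 2 ^ K + s' := Nat.add_mul_div_right _ _ pK
  rw [e0, ← h1, key, h2, Nat.add_sub_cancel]

/-- THE FIELD OF A LEAF -/
theorem leaf_x {s k K q : ℕ} (hk : k ≤ 20) (hK : K = 34 + k)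
    (hX : HN X (fun i => bif b0 i then F i else 0) (fun i => bif b0 i then G i else 0))
    (hs : s = Sm 301 (fun i => nI (b0 i) (o i / 2 ^ 34 * (1 + 2 ^ 128))))
    (ho : ∀ i, b0 i = true → 2 ^ 54 ∣ o i)
    (bF : ∀ i, b0 i = true → LB F o i) (bG : ∀ i, b0 i = true → LB G o i)
    (hq : b0 q = true) :
    ((gt (trU k s X) (160 * q) MR2 : ℕ) : ℤ) = (2 ^ 40 + (F q - o q) / 2 ^ K) +
      (2 ^ 40 + (G q - o q) / 2 ^ K) * 2 ^ 128 := by
  have hK1 : 34 ≤ K := by omega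
  have hK2 : K ≤ 54 := by omega
  have h224 : ∀ i, (fun i => nI (b0 i) (aF F o K i + aF G o K i * 2 ^ 128)) i ≤ 2 ^ 224 := by
    intro i
    show nI (b0 i) (aF F o K i + aF G o K i * 2 ^ 128) ≤ 2 ^ 224
    cases hb : b0 i
    · rw [nI_f]; positivity
    · rw [nI_t]
      have h95 : (2 : ℕ) ^ (K + 41) ≤ 2 ^ 95 := Nat.pow_le_pow_right (by norm_num) (by omega)
      have h1 := (aF_ok hK1 (bF i hb)).2
      have h2 := (aF_ok hK1 (bG i hb)).2
      have h3 : aF F o K i ≤ 2 ^ 95 := by omega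
      have h4 : aF G o K i * 2 ^ 128 ≤ 2 ^ 95 * 2 ^ 128 := Nat.mul_le_mul_right _ (by omega)
      calc aF F o K i + aF G o K i * 2 ^ 128 ≤ 2 ^ 95 + 2 ^ 95 * 2 ^ 128 := add_le_add h3 h4
        _ ≤ 2 ^ 224 := by norm_num
  obtain ⟨T, hT⟩ := Sm_at h224 (fun i hi => by
    show nI (b0 i) _ = 0
    rw [hi, nI_f]) hq
  have hg : gt (trU k s X) (160 * q) MR2 = aF F o K q / 2 ^ K + 2 ^ 128 * (aF G o K q / 2 ^ K) := by
    rw [leaf_W hk hK hX hs ho bF bG]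
    generalize Sm 301 (fun i => nI (b0 i) (aF F o K i + aF G o K i * 2 ^ 128)) = Z at hT
    have e1 : gt (Z / 2 ^ K) (160 * q) MR2 = (Z / 2 ^ K / 2 ^ (160 * q)) &&& MR2 := by
      show (Z / 2 ^ K) >>> (160 * q) &&& MR2 = _
      rw [Nat.shiftRight_eq_div_pow]
    have e2 : Z / 2 ^ K / 2 ^ (160 * q) = Z / 2 ^ (160 * q) / 2 ^ K := by
      rw [Nat.div_div_eq_div_mul, Nat.div_div_eq_div_mul, mul_comm]
    have e3 : nI (b0 q) (aF F o K q + aF G o K q * 2 ^ 128) =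
        aF F o K q + aF G o K q * 2 ^ 128 := by
      rw [hq, nI_t]
    rw [e1, e2, hT, e3]
    exact fld hK2 (aF_ok hK1 (bF q hq)).2 (aF_ok hK1 (bG q hq)).2
  rw [hg]
  push_cast
  rw [(aF_ok hK1 (bF q hq)).1, (aF_ok hK1 (bG q hq)).1]
  have e3 : ∀ z : ℤ, (z + 2 ^ (40 + K)) / 2 ^ K = 2 ^ 40 + z / 2 ^ K := by
    intro z
    rw [pow_add, Int.add_mul_ediv_right _ _ (by positivity)]
    ring
  rw [e3, e3]
  ring

end

end Pool.Agent.Helper91.FU.N1
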