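import Pool.Agent.Helper90.FU.N1B
import Pool.Agent.Helper55.TM.CV2

/-!
Fused machine (MP_c75db0, star frame), row N1: the exact values at the nodes.
-/

set_option autoImplicit false
set_option exponentiation.threshold 100000
noncomputable section
namespace Pool.Agent.Helper91.FU.N1

open Finset
open Pool.Agent.Helper91
open Pool.Agent.Helper91.TM (Sm Sz Sp fo xd vb x_of vb_rep vb_of vb_iff)
open Pool.Agent.Helper55.CV (RN b1 b2 b1_iff b2_iff b1_f b2_f)

/-- the value at the node `i` of one variable -/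
def rN (i : Fin 3) (st : ℕ) (x : ℕ → ℝ) (p : ℕ) : ℝ :=
  ![rE st x p - rO st x p, x p, rE st x p + rO st x p] i

theorem rN_eq (i : Fin 3) (st : ℕ) (x : ℕ → ℝ) (p : ℕ) :
    rN i st x p = ∑ k ∈ range 7, ec k (ns i) * x (p + k * st) := by
  simp only [Finset.sum_range_succ, Finset.sum_range_zero, zero_mul, add_zero, zero_add]
  fin_cases i
  · show rE st x p - rO st x p = _
    simp only [rE, rO, ec, ns]
    norm_num
    ring
  · show x p = _
    simp only [ec, ns]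
    norm_num
  · show rE st x p + rO st x p = _
    simp only [rE, rO, ec, ns]
    norm_num
    ring

theorem i2 : ∀ d < 7, ∀ j < d + 1, b2 (43 * d + j) = true ∧ b2 (43 * d + j + 7) = false ∧
    b2 (43 * d + j + 14) = false ∧ (7 ≤ 43 * d + j → b2 (43 * d + j - 7) = false) ∧
    (14 ≤ 43 * d + j → b2 (43 * d + j - 14) = false) ∧
    (14 ≤ 43 * d + j + 7 → b2 (43 * d + j + 7 - 14) = false) ∧
    b2 (43 * d + j + 14 - 7) = false := by decide +kernel
theorem i1 : ∀ d < 7, ∀ m < 3, b1 (43 * d + 7 * m) = true ∧ b1 (43 * d + 7 * m + 2) = false ∧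
    b1 (43 * d + 7 * m + 4) = false ∧ (2 ≤ 43 * d + 7 * m → b1 (43 * d + 7 * m - 2) = false) ∧
    (4 ≤ 43 * d + 7 * m → b1 (43 * d + 7 * m - 4) = false) ∧
    (4 ≤ 43 * d + 7 * m + 2 → b1 (43 * d + 7 * m + 2 - 4) = false) ∧
    b1 (43 * d + 7 * m + 4 - 2) = false := by decide +kernel

theorem rP_at2 (x : ℕ → ℝ) {d j : ℕ} (hj : j ≤ d) (hd : d ≤ 6) (m : Fin 3) :
    rP b2 50 7 x (43 * d + j + 7 * (m : ℕ)) = rN m 50 x (43 * d + j) := by
  obtain ⟨k1, k2, k3, k4, k5, k6, k7⟩ := i2 d (by omega) j (by omega)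
  unfold rP
  fin_cases m
  · show _ = rE 50 x (43 * d + j) - rO 50 x (43 * d + j)
    have h1 : b2 (43 * d + j + 7 * 0) = true := k1
    have h2 : b2 (43 * d + j + 7 * 0 - 7) = false ∨ ¬ (7 ≤ 43 * d + j + 7 * 0) := by
      by_cases h : 7 ≤ 43 * d + j + 7 * 0
      · left
        exact k4 h
      · right
        exact h
    have h3 : b2 (43 * d + j + 7 * 0 - 2 * 7) = false ∨ ¬ (2 * 7 ≤ 43 * d + j + 7 * 0) := by
      by_cases h : 2 * 7 ≤ 43 * d + j + 7 * 0
      · left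
        exact k5 h
      · right
        exact h
    show (bif b2 (43 * d + j + 7 * 0) then _ else 0) +
      ((if 7 ≤ 43 * d + j + 7 * 0 then bif b2 (43 * d + j + 7 * 0 - 7) then _ else 0 else 0) +
      (if 2 * 7 ≤ 43 * d + j + 7 * 0 then bif b2 (43 * d + j + 7 * 0 - 2 * 7) then _ else 0 else 0)) = _
    rw [h1, cond_true]
    have e2 : (if 7 ≤ 43 * d + j + 7 * 0 then bif b2 (43 * d + j + 7 * 0 - 7) then
        x (43 * d + j + 7 * 0 - 7) else 0 else 0) = 0 := by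
      rcases h2 with h2 | h2
      · rw [h2]
        simp
      · rw [if_neg h2]
    have e3 : (if 2 * 7 ≤ 43 * d + j + 7 * 0 then bif b2 (43 * d + j + 7 * 0 - 2 * 7) then
        rE 50 x (43 * d + j + 7 * 0 - 2 * 7) + rO 50 x (43 * d + j + 7 * 0 - 2 * 7) else 0
        else 0) = 0 := by
      rcases h3 with h3 | h3
      · rw [h3]
        simp
      · rw [if_neg h3]
    rw [e2, e3]
    simp
  · show (bif b2 (43 * d + j + 7 * 1) then _ else 0) +
      ((if 7 ≤ 43 * d + j + 7 * 1 then bif b2 (43 * d + j + 7 * 1 - 7) then _ else 0 else 0) +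
      (if 2 * 7 ≤ 43 * d + j + 7 * 1 then bif b2 (43 * d + j + 7 * 1 - 2 * 7) then _ else 0 else 0)) =
      x (43 * d + j)
    have h1 : b2 (43 * d + j + 7 * 1) = false := k2
    have h2 : b2 (43 * d + j + 7 * 1 - 7) = true := by
      rw [show 43 * d + j + 7 * 1 - 7 = 43 * d + j by omega]
      exact k1
    have e3 : (if 2 * 7 ≤ 43 * d + j + 7 * 1 then bif b2 (43 * d + j + 7 * 1 - 2 * 7) then
        rE 50 x (43 * d + j + 7 * 1 - 2 * 7) + rO 50 x (43 * d + j + 7 * 1 - 2 * 7) else 0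
        else 0) = 0 := by
      by_cases h : 2 * 7 ≤ 43 * d + j + 7 * 1
      · have h5 : b2 (43 * d + j + 7 * 1 - 2 * 7) = false := k6 h
        rw [if_pos h, h5]
        rfl
      · rw [if_neg h]
    rw [h1, h2, e3, if_pos (by omega), cond_true, cond_false, zero_add, add_zero]
    congr 1
  · show (bif b2 (43 * d + j + 7 * 2) then _ else 0) +
      ((if 7 ≤ 43 * d + j + 7 * 2 then bif b2 (43 * d + j + 7 * 2 - 7) then _ else 0 else 0) +
      (if 2 * 7 ≤ 43 * d + j + 7 * 2 then bif b2 (43 * d + j + 7 * 2 - 2 * 7) then _ else 0 else 0)) =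
      rE 50 x (43 * d + j) + rO 50 x (43 * d + j)
    have e : 43 * d + j + 7 * 2 - 2 * 7 = 43 * d + j := by omega
    have h1 : b2 (43 * d + j + 7 * 2) = false := k3
    have h2 : b2 (43 * d + j + 7 * 2 - 7) = false := k7
    rw [h1, h2, if_pos (by omega), if_pos (by omega), cond_false, cond_false,
      zero_add, zero_add, e, k1, cond_true]

theorem rP_at1 (x : ℕ → ℝ) {d : ℕ} (hd : d ≤ 6) (m : Fin 3) (n : Fin 3) :
    rP b1 44 2 x (43 * d + 7 * (m : ℕ) + 2 * (n : ℕ)) = rN n 44 x (43 * d + 7 * (m : ℕ)) := by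
  obtain ⟨k1, k2, k3, k4, k5, k6, k7⟩ := i1 d (by omega) (m : ℕ) m.2
  unfold rP
  have hm := m.2
  set M : ℕ := (m : ℕ) with hM
  fin_cases n
  · show (bif b1 (43 * d + 7 * M + 2 * 0) then _ else 0) +
      ((if 2 ≤ 43 * d + 7 * M + 2 * 0 then bif b1 (43 * d + 7 * M + 2 * 0 - 2) then _ else 0
        else 0) +
      (if 2 * 2 ≤ 43 * d + 7 * M + 2 * 0 then bif b1 (43 * d + 7 * M + 2 * 0 - 2 * 2) then _ else 0
        else 0)) = rE 44 x (43 * d + 7 * M) - rO 44 x (43 * d + 7 * M)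
    have h1 : b1 (43 * d + 7 * M + 2 * 0) = true := k1
    have e2 : (if 2 ≤ 43 * d + 7 * M + 2 * 0 then bif b1 (43 * d + 7 * M + 2 * 0 - 2) then
        x (43 * d + 7 * M + 2 * 0 - 2) else 0 else 0) = 0 := by
      by_cases h : 2 ≤ 43 * d + 7 * M + 2 * 0
      · have h5 : b1 (43 * d + 7 * M + 2 * 0 - 2) = false := k4 h
        rw [if_pos h, h5]
        rfl
      · rw [if_neg h]
    have e3 : (if 2 * 2 ≤ 43 * d + 7 * M + 2 * 0 then bif b1 (43 * d + 7 * M + 2 * 0 - 2 * 2) then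
        rE 44 x (43 * d + 7 * M + 2 * 0 - 2 * 2) + rO 44 x (43 * d + 7 * M + 2 * 0 - 2 * 2) else 0
        else 0) = 0 := by
      by_cases h : 2 * 2 ≤ 43 * d + 7 * M + 2 * 0
      · have h5 : b1 (43 * d + 7 * M + 2 * 0 - 2 * 2) = false := k5 h
        rw [if_pos h, h5]
        rfl
      · rw [if_neg h]
    rw [h1, e2, e3, cond_true, add_zero, add_zero]
    rfl
  · show (bif b1 (43 * d + 7 * M + 2 * 1) then _ else 0) +
      ((if 2 ≤ 43 * d + 7 * M + 2 * 1 then bif b1 (43 * d + 7 * M + 2 * 1 - 2) then _ else 0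
        else 0) +
      (if 2 * 2 ≤ 43 * d + 7 * M + 2 * 1 then bif b1 (43 * d + 7 * M + 2 * 1 - 2 * 2) then _ else 0
        else 0)) = x (43 * d + 7 * M)
    have h1 : b1 (43 * d + 7 * M + 2 * 1) = false := k2
    have h2 : b1 (43 * d + 7 * M + 2 * 1 - 2) = true := by
      rw [show 43 * d + 7 * M + 2 * 1 - 2 = 43 * d + 7 * M by omega]
      exact k1
    have e3 : (if 2 * 2 ≤ 43 * d + 7 * M + 2 * 1 then bif b1 (43 * d + 7 * M + 2 * 1 - 2 * 2) then
        rE 44 x (43 * d + 7 * M + 2 * 1 - 2 * 2) + rO 44 x (43 * d + 7 * M + 2 * 1 - 2 * 2) else 0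
        else 0) = 0 := by
      by_cases h : 2 * 2 ≤ 43 * d + 7 * M + 2 * 1
      · have h5 : b1 (43 * d + 7 * M + 2 * 1 - 2 * 2) = false := k6 h
        rw [if_pos h, h5]
        rfl
      · rw [if_neg h]
    rw [h1, h2, e3, if_pos (by omega), cond_true, cond_false, zero_add, add_zero]
    congr 1
  · show (bif b1 (43 * d + 7 * M + 2 * 2) then _ else 0) +
      ((if 2 ≤ 43 * d + 7 * M + 2 * 2 then bif b1 (43 * d + 7 * M + 2 * 2 - 2) then _ else 0
        else 0) +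
      (if 2 * 2 ≤ 43 * d + 7 * M + 2 * 2 then bif b1 (43 * d + 7 * M + 2 * 2 - 2 * 2) then _ else 0
        else 0)) = rE 44 x (43 * d + 7 * M) + rO 44 x (43 * d + 7 * M)
    have e : 43 * d + 7 * M + 2 * 2 - 2 * 2 = 43 * d + 7 * M := by omega
    have h1 : b1 (43 * d + 7 * M + 2 * 2) = false := k3
    have h2 : b1 (43 * d + 7 * M + 2 * 2 - 2) = false := k7
    rw [h1, h2, if_pos (by omega), if_pos (by omega), cond_false, cond_false,
      zero_add, zero_add, e, k1, cond_true]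

theorem b2_hb {p : ℕ} (h : 301 ≤ p + 2 * 7) : b2 p = false := b2_f (by omega)
theorem b1_hb {p : ℕ} (h : 301 ≤ p + 2 * 2) : b1 p = false := b1_f fun hh => by
  have : p / 43 = 6 := by omega
  omega

theorem node_sum {x : ℕ → ℝ} (hz : ∀ i, 301 ≤ i → x i = 0) (i0 i1 i2 : Fin 3) :
    rN i0 43 (rP b1 44 2 (rP b2 50 7 x)) (7 * (i2 : ℕ) + 2 * (i1 : ℕ)) =
      ∑ i ∈ range 7, ∑ j ∈ range 7, ∑ k ∈ range 7, ec i (ns i0) * (ec j (ns i1) *
        (ec k (ns i2) * x (43 * i + 44 * j + 50 * k))) := by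
  rw [rN_eq]
  refine Finset.sum_congr rfl fun i hi => ?_
  rw [mem_range] at hi
  have e1 : 7 * (i2 : ℕ) + 2 * (i1 : ℕ) + i * 43 = 43 * i + 7 * (i2 : ℕ) + 2 * (i1 : ℕ) := by ring
  rw [e1, rP_at1 _ (by omega) i2 i1, rN_eq, Finset.mul_sum]
  refine Finset.sum_congr rfl fun j hj => ?_
  rw [mem_range] at hj
  have e2 : 43 * i + 7 * (i2 : ℕ) + j * 44 = 43 * (i + j) + j + 7 * (i2 : ℕ) := by ring
  rw [e2]
  by_cases h : i + j ≤ 6
  · rw [rP_at2 x (by omega) h i2, rN_eq, Finset.mul_sum, Finset.mul_sum]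
    refine Finset.sum_congr rfl fun k _ => ?_
    rw [show 43 * (i + j) + j + k * 50 = 43 * i + 44 * j + 50 * k by ring]
  · rw [rP_z x (fun p hp => b2_hb hp) (by omega), mul_zero, mul_zero]
    symm
    refine Finset.sum_eq_zero fun k _ => ?_
    rw [hz _ (by omega)]
    ring

/-- THE EXACT VALUES AT THE NODES -/
theorem Un_eq {p : ℕ → ℝ} (hp : ∀ i, vb i = false → p i = 0) (i0 i1 i2 : Fin 3) :
    rN i0 43 (rP b1 44 2 (rP b2 50 7 (fun i => p i / 4 ^ xd i)))
      (7 * (i2 : ℕ) + 2 * (i1 : ℕ)) = Un p i0 i1 i2 := by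
  have hv : ∀ i, 301 ≤ i → vb i = false := fun i hi => by
    cases h : vb i
    · rfl
    · have := ((vb_iff i).1 h).1
      omega
  have hz : ∀ i, 301 ≤ i → (fun i => p i / 4 ^ xd i) i = 0 := fun i hi => by
    show p i / 4 ^ xd i = 0
    rw [hp i (hv i hi), zero_div]
  rw [node_sum hz]
  have h1 : ∑ i ∈ range 7, ∑ j ∈ range 7, ∑ k ∈ range 7, ec i (ns i0) * (ec j (ns i1) *
        (ec k (ns i2) * (p (43 * i + 44 * j + 50 * k) / 4 ^ xd (43 * i + 44 * j + 50 * k)))) =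
      ∑ u ∈ (range 7 ×ˢ (range 7 ×ˢ range 7)).filter (fun u => u.1 + u.2.1 + u.2.2 ≤ 6),
        ec u.1 (ns i0) * (ec u.2.1 (ns i1) * (ec u.2.2 (ns i2) *
        (p (43 * u.1 + 44 * u.2.1 + 50 * u.2.2) / 4 ^ xd (43 * u.1 + 44 * u.2.1 + 50 * u.2.2)))) := by
    rw [Finset.sum_filter_of_ne, Finset.sum_product]
    · refine Finset.sum_congr rfl fun i _ => ?_
      rw [Finset.sum_product]
    · intro u _ hne
      by_contra hc
      apply hne
      rw [hp _ (hv _ (by omega))]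
      simp
  rw [h1]
  unfold Un
  refine Finset.sum_of_injOn (fun u : ℕ × ℕ × ℕ => 43 * u.1 + 44 * u.2.1 + 50 * u.2.2) ?_ ?_ ?_ ?_
  · intro u hu w hw e
    simp only [Finset.coe_filter, mem_product, mem_range, Set.mem_ofPred_eq] at hu hw
    have e' : 43 * (u.1 + u.2.1 + u.2.2) + (u.2.1 + 7 * u.2.2) =
        43 * (w.1 + w.2.1 + w.2.2) + (w.2.1 + 7 * w.2.2) := by
      have e1 : 43 * u.1 + 44 * u.2.1 + 50 * u.2.2 = 43 * w.1 + 44 * w.2.1 + 50 * w.2.2 := e
      linarith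
    obtain ⟨k1, k2, k3⟩ := x_of (D := u.1 + u.2.1 + u.2.2) (B := u.2.1) (C := u.2.2)
      (by omega) (by omega)
    obtain ⟨l1, l2, l3⟩ := x_of (D := w.1 + w.2.1 + w.2.2) (B := w.2.1) (C := w.2.2)
      (by omega) (by omega)
    rw [e'] at k1 k2 k3
    rw [k1] at l1
    rw [k2] at l2
    rw [k3] at l3
    refine Prod.ext ?_ (Prod.ext ?_ ?_)
    · omega
    · exact l2
    · exact l3
  · intro u hu
    simp only [Finset.coe_filter, mem_product, mem_range, Set.mem_ofPred_eq] at hu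
    simp only [Finset.coe_range, Set.mem_Iio]
    omega
  · intro i hi hn
    rw [mem_range] at hi
    cases hvi : vb i
    · rw [hp i hvi]
      simp
    · exfalso
      obtain ⟨D, B, C, rfl, c1, c2, c3⟩ := vb_rep hvi
      apply hn
      refine ⟨(D - (B + C), B, C), ?_, ?_⟩
      · simp only [Finset.coe_filter, mem_product, mem_range, Set.mem_ofPred_eq]
        omega
      · show 43 * (D - (B + C)) + 44 * B + 50 * C = _
        omega
  · intro u hu
    simp only [mem_filter, mem_product, mem_range] at hu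
    obtain ⟨h2, h3⟩ := hu
    have e : 43 * u.1 + 44 * u.2.1 + 50 * u.2.2 =
        43 * (u.1 + u.2.1 + u.2.2) + (u.2.1 + 7 * u.2.2) := by ring
    obtain ⟨k1, k2, k3⟩ := x_of (D := u.1 + u.2.1 + u.2.2) (B := u.2.1) (C := u.2.2)
      (by omega) (by omega)
    show _ = p (43 * u.1 + 44 * u.2.1 + 50 * u.2.2) / 4 ^ xd (43 * u.1 + 44 * u.2.1 + 50 * u.2.2) *
      (ec (TM.x0 (43 * u.1 + 44 * u.2.1 + 50 * u.2.2)) (ns i0) *
        ec (TM.x1 (43 * u.1 + 44 * u.2.1 + 50 * u.2.2)) (ns i1) *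
        ec (TM.x2 (43 * u.1 + 44 * u.2.1 + 50 * u.2.2)) (ns i2))
    have g0 : TM.x0 (43 * u.1 + 44 * u.2.1 + 50 * u.2.2) = u.1 := by
      unfold TM.x0
      rw [e, k1, k2, k3]
      omega
    rw [g0, e, k1, k2, k3]
    ring

end Pool.Agent.Helper91.FU.N1
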