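import Pool.Agent.Helper90.FU.N1C
import Pool.Agent.Helper90.FU.N1R

/-!
Fused machine (MP_c75db0, star frame), row N1: THE NUMBERS AT THE NODES.
-/

set_option autoImplicit false
set_option exponentiation.threshold 100000
noncomputable section
namespace Pool.Agent.Helper91.FU.N1

open Finset
open Pool.Agent.Helper91
open Pool.Agent.Helper91.TM (Sm Sz Sp fo fo_t fo_f vb xd vb_iff Sz_cast Sz_congr)
open Pool.Agent.Helper55.CV (RN cst55 b1 b2)
open Pool.Agent.Helper17.N9 (MR2)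

/-! ### the division by `4 ^ d` -/

/-- the digits of degree `d` -/
def bd (d i : Nat) : Bool := and (vb i) (Nat.beq (Nat.div i (nat_lit 43)) d)

theorem hM0 : uM0 = Sm 301 (fun i => fo (Ms (2 * 0)) (bd 0 i)) := cst55 (by decide +kernel)
theorem hM1 : uM1 = Sm 301 (fun i => fo (Ms (2 * 1)) (bd 1 i)) := cst55 (by decide +kernel)
theorem hM2 : uM2 = Sm 301 (fun i => fo (Ms (2 * 2)) (bd 2 i)) := cst55 (by decide +kernel)
theorem hM3 : uM3 = Sm 301 (fun i => fo (Ms (2 * 3)) (bd 3 i)) := cst55 (by decide +kernel)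
theorem hM4 : uM4 = Sm 301 (fun i => fo (Ms (2 * 4)) (bd 4 i)) := cst55 (by decide +kernel)
theorem hM5 : uM5 = Sm 301 (fun i => fo (Ms (2 * 5)) (bd 5 i)) := cst55 (by decide +kernel)
theorem hM6 : uM6 = Sm 301 (fun i => fo (Ms (2 * 6)) (bd 6 i)) := cst55 (by decide +kernel)

/-- one degree -/
theorem us1 {M d X : ℕ} (hd : 2 * d ≤ 80) (hM : M = Sm 301 (fun i => fo (Ms (2 * d)) (bd d i)))
    {f g : ℕ → ℤ} (h : HN X f g) (hf : Bd f) (hg : Bd g) :
    HN (Nat.shiftRight (Nat.land X M) (2 * d)) (fun i => bif bd d i then f i / 2 ^ (2 * d) else 0)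
      (fun i => bif bd d i then g i / 2 ^ (2 * d) else 0) := by
  have h1 := h.msk hd hM hf hg 0
  have h2 : HN (Nat.land X M) (fun i => 2 ^ (2 * d) * (bif bd d i then f i / 2 ^ (2 * d) else 0))
      (fun i => 2 ^ (2 * d) * (bif bd d i then g i / 2 ^ (2 * d) else 0)) := by
    refine HN.congr h1 (fun i => ?_) fun i => ?_
    · cases bd d i
      · rw [cond_false, cond_false, mul_zero]
      · rfl
    · cases bd d i
      · rw [cond_false, cond_false, mul_zero]
      · rfl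
  exact h2.shr

/-- the digits divided by `4 ^ d` -/
def uF (f : ℕ → ℤ) (i : ℕ) : ℤ := bif vb i then f i / 4 ^ xd i else 0

theorem us_sum (f : ℕ → ℤ) (i : ℕ) :
    ((bif bd 0 i then f i / 2 ^ (2 * 0) else 0) + (bif bd 1 i then f i / 2 ^ (2 * 1) else 0)) +
    (((bif bd 2 i then f i / 2 ^ (2 * 2) else 0) + (bif bd 3 i then f i / 2 ^ (2 * 3) else 0)) +
    ((bif bd 4 i then f i / 2 ^ (2 * 4) else 0) + ((bif bd 5 i then f i / 2 ^ (2 * 5) else 0) +
    (bif bd 6 i then f i / 2 ^ (2 * 6) else 0)))) = uF f i := by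
  cases hv : vb i
  · have e : ∀ d, bd d i = false := fun d => by
      show and (vb i) _ = false
      rw [hv]
      rfl
    unfold uF
    rw [e, e, e, e, e, e, e, hv]
    rfl
  · have e : ∀ d, bd d i = Nat.beq (i / 43) d := fun d => by
      show and (vb i) _ = _
      rw [hv]
      rfl
    have h6 : xd i ≤ 6 := by
      have := ((vb_iff i).1 hv).1
      unfold xd
      omega
    have hx : i / 43 = xd i := rfl
    unfold uF
    rw [e, e, e, e, e, e, e, hv, hx]
    generalize xd i = D at h6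
    have h4 : ∀ n : ℕ, (4 : ℤ) ^ n = 2 ^ (2 * n) := fun n => by
      rw [pow_mul]
      norm_num
    rw [h4]
    interval_cases D
    · show (f i / 2 ^ (2 * 0) + 0) + ((0 + 0) + (0 + (0 + 0))) = f i / 2 ^ (2 * 0)
      ring
    · show (0 + f i / 2 ^ (2 * 1)) + ((0 + 0) + (0 + (0 + 0))) = f i / 2 ^ (2 * 1)
      ring
    · show (0 + 0) + ((f i / 2 ^ (2 * 2) + 0) + (0 + (0 + 0))) = f i / 2 ^ (2 * 2)
      ring
    · show (0 + 0) + ((0 + f i / 2 ^ (2 * 3)) + (0 + (0 + 0))) = f i / 2 ^ (2 * 3)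
      ring
    · show (0 + 0) + ((0 + 0) + (f i / 2 ^ (2 * 4) + (0 + 0))) = f i / 2 ^ (2 * 4)
      ring
    · show (0 + 0) + ((0 + 0) + (0 + (f i / 2 ^ (2 * 5) + 0))) = f i / 2 ^ (2 * 5)
      ring
    · show (0 + 0) + ((0 + 0) + (0 + (0 + f i / 2 ^ (2 * 6)))) = f i / 2 ^ (2 * 6)
      ring

theorem usc_ok {Y : ℕ} {f g : ℕ → ℤ} (h : HN Y f g) (hf : Bd f) (hg : Bd g) :
    HN (usc Y) (uF f) (uF g) := by
  have h0 : HN (Nat.land Y uM0) (fun i => bif bd 0 i then f i / 2 ^ (2 * 0) else 0)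
      (fun i => bif bd 0 i then g i / 2 ^ (2 * 0) else 0) := us1 (by norm_num) hM0 h hf hg
  refine ((h0.add (us1 (by norm_num) hM1 h hf hg)).add (((us1 (by norm_num) hM2 h hf hg).add
    (us1 (by norm_num) hM3 h hf hg)).add ((us1 (by norm_num) hM4 h hf hg).add
    ((us1 (by norm_num) hM5 h hf hg).add (us1 (by norm_num) hM6 h hf hg))))).congr
    (fun i => us_sum f i) fun i => us_sum g i

/-! ### the offsets -/

def O0 (q : Nat) : Nat := nI (vb q) (Nat.pow (nat_lit 2) (Nat.sub (nat_lit 73)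
  (Nat.mul (nat_lit 2) (Nat.div q (nat_lit 43)))))
def O2 (q : Nat) : Nat := nP b2 (nat_lit 50) (nat_lit 7) O0 q
def O1 (q : Nat) : Nat := nP b1 (nat_lit 44) (nat_lit 2) O2 q

theorem O0_z {i : ℕ} (h : 301 ≤ i) : O0 i = 0 := by
  have : vb i = false := by
    cases hv : vb i
    · rfl
    · have := ((vb_iff i).1 hv).1
      omega
  show nI (vb i) _ = 0
  rw [this, nI_f]
theorem O2_z {i : ℕ} (h : 301 ≤ i) : O2 i = 0 := nP_z _ (fun _ hp => b2_hb hp) h
theorem O1_z {i : ℕ} (h : 301 ≤ i) : O1 i = 0 := nP_z _ (fun _ hp => b1_hb hp) h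

/-- small and divisible by `2 ^ 56` -/
def chO (o : Nat → Nat) (m i : Nat) : Bool :=
  and (Nat.blt (o i) (nat_lit 604462909807314587353088))
    (Nat.beq (Nat.mod (o i) m) (nat_lit 0))
theorem chO_ok {o : ℕ → ℕ} {m : ℕ} (hm : 4 ∣ m) (h : allN (chO o m) 301 = true)
    (hz : ∀ i, 301 ≤ i → o i = 0) : (∀ i < 301, o i < 2 ^ 79) ∧ D4 o ∧ ∀ i, m ∣ o i := by
  have k : ∀ i < 301, o i < 2 ^ 79 ∧ m ∣ o i := fun i hi => by
    have h1 := allN_ok h i hi
    have h2 : (Nat.blt (o i) 604462909807314587353088 && Nat.beq (o i % m) 0) = true := h1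
    rw [Bool.and_eq_true, Nat.blt_eq] at h2
    exact ⟨h2.1, Nat.dvd_of_mod_eq_zero (Nat.eq_of_beq_eq_true h2.2)⟩
  have k2 : ∀ i, m ∣ o i := fun i => by
    rcases lt_or_ge i 301 with hi | hi
    · exact (k i hi).2
    · rw [hz i hi]
      exact dvd_zero _
  exact ⟨fun i hi => (k i hi).1, fun i => hm.trans (k2 i), k2⟩

theorem cO0 : (∀ i < 301, O0 i < 2 ^ 79) ∧ D4 O0 ∧ ∀ i, 288230376151711744 ∣ O0 i :=
  chO_ok (m := 288230376151711744) (by norm_num)
  (show allN (chO O0 288230376151711744) 301 = true by decide +kernel) (fun _ h => O0_z h)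
theorem cO2 : (∀ i < 301, O2 i < 2 ^ 79) ∧ D4 O2 ∧ ∀ i, 288230376151711744 ∣ O2 i :=
  chO_ok (m := 288230376151711744) (by norm_num)
  (show allN (chO O2 288230376151711744) 301 = true by decide +kernel) (fun _ h => O2_z h)
theorem cO1 : (∀ i < 301, O1 i < 2 ^ 79) ∧ D4 O1 ∧ ∀ i, 72057594037927936 ∣ O1 i :=
  chO_ok (m := 72057594037927936) (by norm_num)
  (show allN (chO O1 72057594037927936) 301 = true by decide +kernel) (fun _ h => O1_z h)

/-- twice the odd part, in both halves -/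
def kO (bs : Nat → Bool) (st : Nat) (o : Nat → Nat) (i : Nat) : Nat :=
  nI (bs i) (Nat.mul (Nat.mul (nat_lit 2) (nO st o i)) (nat_lit 1208925819614629174706177))

theorem HN_k {K st : ℕ} {bs : ℕ → Bool} {o : ℕ → ℕ} (h : K = Sm 301 (kO bs st o)) :
    HN K (fun i => bif bs i then 2 * (nO st o i : ℤ) else 0)
      (fun i => bif bs i then 2 * (nO st o i : ℤ) else 0) := by
  have nn : ∀ i, 0 ≤ (bif bs i then 2 * (nO st o i : ℤ) else 0) := fun i => by
    cases bs i
    · exact le_rfl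
    · rw [cond_true]
      positivity
  refine ⟨⟨?_, fun i => ?_⟩, nn, nn⟩
  · rw [h, Sz_cast]
    refine Sz_congr fun i _ => ?_
    show ((kO bs st o i : ℕ) : ℤ) = (bif bs i then 2 * (nO st o i : ℤ) else 0) +
      2 ^ 80 * (bif bs i then 2 * (nO st o i : ℤ) else 0)
    have e : kO bs st o i = nI (bs i) (2 * nO st o i * 1208925819614629174706177) := rfl
    rw [e]
    cases bs i
    · rfl
    · rw [nI_t, cond_true]
      push_cast
      ring
  · have := nn i
    show 0 ≤ (bif bs i then 2 * (nO st o i : ℤ) else 0) +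
      2 ^ 80 * (bif bs i then 2 * (nO st o i : ℤ) else 0)
    positivity

theorem k2_ok : k2 = Sm 301 (kO b2 50 O0) := cstH (by decide +kernel)
theorem k1_ok : k1 = Sm 301 (kO b1 44 O2) := cstH (by decide +kernel)
theorem k0_ok : k0 = Sm 301 (kO b0 43 O1) := cstH (by decide +kernel)
theorem m2_ok : m2 = Sm 301 (fun i => fo (Ms 0) (b2 i)) := cst55 (by decide +kernel)
theorem m1_ok : m1 = Sm 301 (fun i => fo (Ms 0) (b1 i)) := cst55 (by decide +kernel)
theorem m0_ok : m0 = Sm 301 (fun i => fo (Ms 0) (b0 i)) := cst55 (by decide +kernel)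
theorem n2_ok : n2 = Sm 301 (fun i => fo (Ms 2) (b2 i)) := cst55 (by decide +kernel)
theorem n1_ok : n1 = Sm 301 (fun i => fo (Ms 2) (b1 i)) := cst55 (by decide +kernel)
theorem n0_ok : n0 = Sm 301 (fun i => fo (Ms 2) (b0 i)) := cst55 (by decide +kernel)

/-- the offsets of the leaves -/
def Oo (q : Nat) : Nat := Nat.add (nE (nat_lit 43) O1 q) (nO (nat_lit 43) O1 q)
def oL (o : Nat → Nat) (i : Nat) : Nat :=
  nI (b0 i) (Nat.mul (Nat.div (o i) (nat_lit 17179869184))
    (nat_lit 340282366920938463463374607431768211457))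
theorem oL_eq (o : ℕ → ℕ) : oL o = fun i => nI (b0 i) (o i / 2 ^ 34 * (1 + 2 ^ 128)) := by
  funext i
  have e1 : oL o i = nI (b0 i) (o i / 17179869184 * 340282366920938463463374607431768211457) := rfl
  rw [e1]
  norm_num
theorem sa_ok : sa = Sm 301 (oL Oo) := cstH (by decide +kernel)
theorem sb_ok : sb = Sm 301 (oL Oo) := cstH (by decide +kernel)
theorem sc_ok : sc = Sm 301 (oL O1) := cstH (by decide +kernel)

end Pool.Agent.Helper91.FU.N1
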